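import Pool.Agent.T9h58.Sel.Grp
import Pool.Agent.N874.QM.Stm

/-!
# The Selmer group: comparison of local conditions
-/

set_option autoImplicit false
set_option linter.style.haveILetI false

open WeierstrassCurve IsDedekindDomain NumberField
open Pool.Agent.TH115.GD (Pt act act_act rs incl IsCoc Sep LocTriv)
open scoped Classical

namespace Pool.Agent.T9h58.Sel

section gen

variable {K : Type} [Field K]

theorem LocallyTrivial.locTriv {W : WeierstrassCurve K} {L : Type} [Field L] [Algebra K L]
    {f : Cochain W} (h : LocallyTrivial W L f) : LocTriv W L (Sep L) f := by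
  haveI : Algebra.IsSeparable K (Sep K) := IsSepClosure.separable
  let ι : Sep K →ₐ[K] Sep L := IsSepClosed.lift
  obtain ⟨P, hP⟩ := h ι
  refine ⟨ι, P, fun τ σ hτ => ?_⟩
  have e : ι.restrictScalars K = ι := AlgHom.ext fun _ => rfl
  rw [e]
  exact hP τ σ hτ

/-- An isomorphism of extensions extends to the separable closures. -/
theorem exists_lift {L L' : Type} [Field L] [Field L'] (e : L ≃+* L') :
    ∃ E : Sep L ≃+* Sep L', ∀ x : L, E (algebraMap L (Sep L) x) = algebraMap L' (Sep L') (e x) := by
  letI : Algebra L (Sep L') := ((algebraMap L' (Sep L')).comp (e : L →+* L')).toAlgebra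
  haveI h1 : Algebra.IsSeparable L' (Sep L') := IsSepClosure.separable
  haveI h2 : Algebra.IsSeparable L (Sep L') :=
    Algebra.IsSeparable.of_equiv_equiv (A₁ := L') (B₁ := Sep L') (A₂ := L) (B₂ := Sep L') e.symm
      (RingEquiv.refl (Sep L')) (by
        refine RingHom.ext fun x => ?_
        show algebraMap L' (Sep L') (e (e.symm x)) = algebraMap L' (Sep L') x
        rw [e.apply_symm_apply])
  haveI h3 : IsSepClosure L (Sep L') := ⟨IsSepClosure.sep_closed L', h2⟩
  refine ⟨(IsSepClosure.equiv L (Sep L) (Sep L')).toRingEquiv, fun x => ?_⟩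
  exact (IsSepClosure.equiv L (Sep L) (Sep L')).commutes x

theorem locTriv_equiv {W : WeierstrassCurve K} {L L' : Type} [Field L] [Algebra K L] [Field L']
    [Algebra K L'] (e : L ≃ₐ[K] L') {f : Cochain W} (h : LocallyTrivial W L f) :
    LocallyTrivial W L' f := by
  obtain ⟨E, hE⟩ := exists_lift e.toRingEquiv
  have hE' : ∀ x : K, E (algebraMap K (Sep L) x) = algebraMap K (Sep L') x := by
    intro x
    rw [IsScalarTower.algebraMap_apply K L (Sep L), hE,
      IsScalarTower.algebraMap_apply K L' (Sep L')]
    congr 1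
    exact e.commutes x
  let φ : Sep L →ₐ[K] Sep L' := { E.toRingHom with commutes' := hE' }
  let ψ : Sep L' →ₐ[K] Sep L := { E.symm.toRingHom with
    commutes' := fun x => by
      show E.symm (algebraMap K (Sep L') x) = _
      rw [← hE', E.symm_apply_apply] }
  intro ι'
  obtain ⟨P, hP⟩ := h (ψ.comp ι')
  refine ⟨act W φ P, fun τ' σ hτ' => ?_⟩
  -- the conjugate automorphism
  let τ : Sep L ≃ₐ[L] Sep L := AlgEquiv.ofRingEquiv
    (f := (E.trans τ'.toRingEquiv).trans E.symm) (fun x => by
      show E.symm (τ' (E (algebraMap L (Sep L) x))) = algebraMap L (Sep L) x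
      rw [hE, τ'.commutes, ← hE, E.symm_apply_apply])
  have h1 : ∀ x, τ ((ψ.comp ι') x) = (ψ.comp ι') (σ x) := by
    intro x
    show E.symm (τ' (E (E.symm (ι' x)))) = E.symm (ι' (σ x))
    rw [E.apply_symm_apply, hτ' x]
  have h2 := congrArg (act W φ) (hP τ σ h1)
  rw [map_sub, act_act, act_act] at h2
  have e1 : φ.comp (ψ.comp ι') = ι' := AlgHom.ext fun x => E.apply_symm_apply _
  have e2 : φ.comp (rs K τ) = (rs K τ').comp φ := AlgHom.ext fun x => E.apply_symm_apply _
  rw [e1, e2, ← act_act] at h2
  exact h2

end gen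

section nf

variable {F : Type} [Field F] [NumberField F]

open NumberField.InfinitePlace NumberField.InfinitePlace.Completion in
/-- The real embeddings and the completions at the real places. -/
theorem exists_real (ρ : F →+* ℝ) : ∃ (v : InfinitePlace F) (e : v.Completion ≃+* ℝ),
    ∀ x : F, e (algebraMap F v.Completion x) = ρ x := by
  let φ : F →+* ℂ := Complex.ofRealHom.comp ρ
  have hφ : ComplexEmbedding.IsReal φ := by
    rw [ComplexEmbedding.isReal_iff]
    refine RingHom.ext fun x => ?_
    rw [ComplexEmbedding.conjugate_coe_eq]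
    exact Complex.conj_ofReal (ρ x)
  have hv : IsReal (InfinitePlace.mk φ) := isReal_mk_iff.2 hφ
  refine ⟨InfinitePlace.mk φ, ringEquivRealOfIsReal hv, fun x => ?_⟩
  have h1 : extensionEmbeddingOfIsReal hv (algebraMap F (InfinitePlace.mk φ).Completion x) =
      embedding_of_isReal hv x := by
    exact extensionEmbeddingOfIsReal_coe hv ((WithAbs.equiv _).symm x)
  have h2 : ((embedding_of_isReal hv x : ℝ) : ℂ) = φ x := by
    rw [embedding_of_isReal_apply, embedding_mk_eq_of_isReal hφ]
  have h3 : embedding_of_isReal hv x = ρ x := Complex.ofReal_injective h2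
  exact h1.trans h3

theorem isLoc_of {W : WeierstrassCurve F} {f : Cochain W}
    (h : ∀ v, LocallyTrivial W (Completion F v) f) : Pool.Agent.N874.QM.IsLoc W f where
  fin := fun w => (h (.inl w)).locTriv
  real := fun ρ => by
    letI := ρ.toAlgebra
    obtain ⟨v, e, he⟩ := exists_real ρ
    have h1 : LocallyTrivial W v.Completion f := h (.inr v)
    exact (locTriv_equiv (AlgEquiv.ofRingEquiv (f := e) he) h1).locTriv

/-- The Selmer group of a curve with the properties of the library theorem is zero. -/
theorem trivial_of {W : WeierstrassCurve F} (hsha : Pool.Agent.N874.QM.ShaC W)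
    (hfin : Finite (Pt W F)) (hodd : Odd (Nat.card (Pt W F))) :
    Subsingleton (SelmerGroup 2 W (Completion F)) := by
  refine selmer_trivial W _ hfin hodd fun f hf hl ⟨n, hn⟩ => hsha f hf (isLoc_of hl) ⟨n, 0, ?_⟩
  intro σ
  rw [hn, map_zero, sub_zero]

end nf

end Pool.Agent.T9h58.Sel
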