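import Pool.Agent.T9h58.Sel.Def

/-!
# Elliptic curves up to isomorphism: short equations
-/

set_option autoImplicit false

open WeierstrassCurve IsDedekindDomain NumberField
open scoped Classical

namespace Pool.Agent.T9h58.Sel

section general

variable {K : Type} [Field K]

/-- the curve `y ^ 2 = x ^ 3 + a x + b` -/
abbrev sw (a b : K) : WeierstrassCurve K := ⟨0, 0, 0, a, b⟩

theorem sw_disc (a b : K) : (sw a b).Δ = -16 * (4 * a ^ 3 + 27 * b ^ 2) := by
  simp only [WeierstrassCurve.Δ, WeierstrassCurve.b₂, WeierstrassCurve.b₄, WeierstrassCurve.b₆,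
    WeierstrassCurve.b₈]
  ring

theorem two_ne (h6 : (6 : K) ≠ 0) : (2 : K) ≠ 0 := fun h => h6 (by
  have : (6 : K) = 2 * 3 := by norm_num
  rw [this, h, zero_mul])

theorem three_ne (h6 : (6 : K) ≠ 0) : (3 : K) ≠ 0 := fun h => h6 (by
  have : (6 : K) = 2 * 3 := by norm_num
  rw [this, h, mul_zero])

theorem sw_disc_ne (h6 : (6 : K) ≠ 0) {a b : K} : (sw a b).Δ ≠ 0 ↔ 4 * a ^ 3 + 27 * b ^ 2 ≠ 0 := by
  rw [sw_disc]
  have h16 : (-16 : K) ≠ 0 := by
    have : (-16 : K) = -(2 ^ 4) := by norm_num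
    rw [this]
    exact neg_ne_zero.2 (pow_ne_zero _ (two_ne h6))
  constructor
  · intro h h0
    exact h (by rw [h0, mul_zero])
  · intro h
    exact mul_ne_zero h16 h

theorem smul_sw (u : Kˣ) (a b : K) :
    (⟨u⁻¹, 0, 0, 0⟩ : VariableChange K) • sw a b = sw ((u : K) ^ 4 * a) ((u : K) ^ 6 * b) := by
  ext
  · rw [variableChange_a₁]; simp
  · rw [variableChange_a₂]; simp
  · rw [variableChange_a₃]; simp
  · rw [variableChange_a₄]; simp
  · rw [variableChange_a₆]; simp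

theorem of_smul_sw (h6 : (6 : K) ≠ 0) {C : VariableChange K} {a b a' b' : K}
    (h : C • sw a b = sw a' b') :
    a' = ((C.u⁻¹ : Kˣ) : K) ^ 4 * a ∧ b' = ((C.u⁻¹ : Kˣ) : K) ^ 6 * b := by
  have hu : ((C.u⁻¹ : Kˣ) : K) ≠ 0 := Units.ne_zero _
  have h2 := two_ne h6
  have h3 := three_ne h6
  have e1 : (C • sw a b).a₁ = 0 := by rw [h]
  have e2 : (C • sw a b).a₂ = 0 := by rw [h]
  have e3 : (C • sw a b).a₃ = 0 := by rw [h]
  have e4 : (C • sw a b).a₄ = a' := by rw [h]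
  have e6 : (C • sw a b).a₆ = b' := by rw [h]
  rw [variableChange_a₁] at e1
  rw [variableChange_a₂] at e2
  rw [variableChange_a₃] at e3
  rw [variableChange_a₄] at e4
  rw [variableChange_a₆] at e6
  have hs : C.s = 0 := by
    have h4 := (mul_eq_zero.1 e1).resolve_left hu
    have h5 : 2 * C.s = 0 := by simpa using h4
    exact (mul_eq_zero.1 h5).resolve_left h2
  have hr : C.r = 0 := by
    have h4 := (mul_eq_zero.1 e2).resolve_left (pow_ne_zero 2 hu)
    rw [hs] at h4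
    have h5 : 3 * C.r = 0 := by simpa using h4
    exact (mul_eq_zero.1 h5).resolve_left h3
  have ht : C.t = 0 := by
    have h4 := (mul_eq_zero.1 e3).resolve_left (pow_ne_zero 3 hu)
    rw [hr] at h4
    have h5 : 2 * C.t = 0 := by simpa using h4
    exact (mul_eq_zero.1 h5).resolve_left h2
  rw [hs, hr, ht] at e4
  rw [hr, ht] at e6
  constructor
  · rw [← e4]; simp
  · rw [← e6]; simp

theorem exists_short (h6 : (6 : K) ≠ 0) (W : WeierstrassCurve K) :
    ∃ (C : VariableChange K) (a b : K), C • W = sw a b := by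
  have h2 := two_ne h6
  have h3 := three_ne h6
  have h12 : (12 : K) ≠ 0 := by
    have : (12 : K) = 2 * 6 := by norm_num
    rw [this]
    exact mul_ne_zero h2 h6
  let C : VariableChange K := ⟨1, -(W.b₂ / 12), -(W.a₁ / 2), -((W.a₃ - W.b₂ / 12 * W.a₁) / 2)⟩
  refine ⟨C, (C • W).a₄, (C • W).a₆, ?_⟩
  ext
  · rw [variableChange_a₁]
    show ((1⁻¹ : Kˣ) : K) * (W.a₁ + 2 * -(W.a₁ / 2)) = 0
    field_simp
    ring
  · rw [variableChange_a₂]
    show ((1⁻¹ : Kˣ) : K) ^ 2 * (W.a₂ - -(W.a₁ / 2) * W.a₁ + 3 * -(W.b₂ / 12) - (-(W.a₁ / 2)) ^ 2) = 0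
    simp only [WeierstrassCurve.b₂, inv_one, Units.val_one, one_pow, one_mul]
    field_simp
    ring
  · rw [variableChange_a₃]
    show ((1⁻¹ : Kˣ) : K) ^ 3 * (W.a₃ + -(W.b₂ / 12) * W.a₁ +
      2 * -((W.a₃ - W.b₂ / 12 * W.a₁) / 2)) = 0
    simp only [inv_one, Units.val_one, one_pow, one_mul]
    field_simp
    ring
  · rfl
  · rfl

theorem disc_smul {W : WeierstrassCurve K} {C : VariableChange K} (h : W.Δ ≠ 0) : (C • W).Δ ≠ 0 := by
  rw [variableChange_Δ]
  exact mul_ne_zero (pow_ne_zero _ (Units.ne_zero _)) h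

theorem isEquation_iff {W : WeierstrassCurve K} (hW : W.Δ ≠ 0) {W' : WeierstrassCurve K} :
    IsEquation (⟦⟨W, hW⟩⟧ : EllipticCurves K) W' ↔ ∃ C : VariableChange K, C • W = W' := by
  constructor
  · rintro ⟨h, h'⟩
    obtain ⟨C, hC⟩ := Quotient.exact h'
    exact ⟨C⁻¹, by
      show C⁻¹ • W = W'
      have hC' : C • W' = W := hC
      rw [← hC', smul_smul, inv_mul_cancel, one_smul]⟩
  · rintro ⟨C, rfl⟩
    refine ⟨disc_smul hW, ?_⟩
    refine Quotient.sound ⟨C⁻¹, ?_⟩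
    show C⁻¹ • (C • W) = W
    rw [smul_smul, inv_mul_cancel, one_smul]

theorem exists_isEquation (A : EllipticCurves K) : ∃ W, IsEquation A W := by
  obtain ⟨⟨W, hW⟩, rfl⟩ := Quotient.exists_rep A
  exact ⟨W, hW, rfl⟩

theorem IsEquation.rel {A : EllipticCurves K} {W W' : WeierstrassCurve K} (h : IsEquation A W)
    (h' : IsEquation A W') : ∃ C : VariableChange K, C • W = W' := by
  obtain ⟨hW, rfl⟩ := h
  exact (isEquation_iff hW).1 h'

theorem IsEquation.smul {A : EllipticCurves K} {W : WeierstrassCurve K} (h : IsEquation A W)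
    (C : VariableChange K) : IsEquation A (C • W) := by
  obtain ⟨hW, rfl⟩ := h
  exact (isEquation_iff hW).2 ⟨C, rfl⟩

theorem IsEquation.unique {A A' : EllipticCurves K} {W : WeierstrassCurve K} (h : IsEquation A W)
    (h' : IsEquation A' W) : A = A' := by
  obtain ⟨hW, rfl⟩ := h
  obtain ⟨hW', rfl⟩ := h'
  rfl

theorem IsEquation.scale {A : EllipticCurves K} {a b : K} (h : IsEquation A (sw a b)) (u : Kˣ) :
    IsEquation A (sw ((u : K) ^ 4 * a) ((u : K) ^ 6 * b)) := by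
  rw [← smul_sw]
  exact h.smul _

theorem IsEquation.sw_rel (h6 : (6 : K) ≠ 0) {A : EllipticCurves K} {a b a' b' : K}
    (h : IsEquation A (sw a b)) (h' : IsEquation A (sw a' b')) :
    ∃ u : Kˣ, a' = (u : K) ^ 4 * a ∧ b' = (u : K) ^ 6 * b := by
  obtain ⟨C, hC⟩ := h.rel h'
  exact ⟨C.u⁻¹, of_smul_sw h6 hC⟩

end general

section nf

variable {F : Type} [Field F] [NumberField F]

theorem six_ne : (6 : F) ≠ 0 := by norm_num

theorem models_rel {A : EllipticCurves F} {q q' : 𝓞 F × 𝓞 F} (h : q ∈ models A)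
    (h' : q' ∈ models A) : ∃ u : Fˣ, (q'.1 : F) = (u : F) ^ 4 * q.1 ∧ (q'.2 : F) = (u : F) ^ 6 * q.2 :=
  IsEquation.sw_rel six_ne h h'

theorem models_ne {A : EllipticCurves F} {q : 𝓞 F × 𝓞 F} (h : q ∈ models A) :
    q.1 ≠ 0 ∨ q.2 ≠ 0 := by
  by_contra hcon
  push Not at hcon
  obtain ⟨hD, -⟩ := h
  have h1 := (sw_disc_ne six_ne).1 hD
  apply h1
  rw [hcon.1, hcon.2]
  simp

/-- every elliptic curve has an integral short model -/
theorem models_nonempty (A : EllipticCurves F) : (models A).Nonempty := by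
  obtain ⟨W, hW⟩ := exists_isEquation A
  obtain ⟨C, a, b, hC⟩ := exists_short six_ne W
  have h1 : IsEquation A (sw a b) := by
    rw [← hC]
    exact hW.smul C
  -- a common denominator
  obtain ⟨⟨d, hd⟩, hd'⟩ := IsLocalization.exist_integer_multiples_of_finset
    (nonZeroDivisors (𝓞 F)) ({a, b} : Finset F)
  have hd0 : (d : F) ≠ 0 := by
    intro h0
    exact nonZeroDivisors.ne_zero hd (RingOfIntegers.ext h0)
  obtain ⟨a', ha'⟩ := hd' a (by simp)
  obtain ⟨b', hb'⟩ := hd' b (by simp)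
  have ha : (a' : F) = (d : F) * a := by
    rw [show ((a' : 𝓞 F) : F) = algebraMap (𝓞 F) F a' from rfl, ha']
    exact Algebra.smul_def _ _
  have hb : (b' : F) = (d : F) * b := by
    rw [show ((b' : 𝓞 F) : F) = algebraMap (𝓞 F) F b' from rfl, hb']
    exact Algebra.smul_def _ _
  have h2 := h1.scale (Units.mk0 (d : F) hd0)
  refine ⟨(d ^ 3 * a', d ^ 5 * b'), ?_⟩
  show IsEquation A (sw (((d ^ 3 * a' : 𝓞 F)) : F) ((d ^ 5 * b' : 𝓞 F) : F))
  have e1 : (((d ^ 3 * a' : 𝓞 F)) : F) = (d : F) ^ 4 * a := by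
    show algebraMap (𝓞 F) F (d ^ 3 * a') = _
    rw [map_mul, map_pow, show (algebraMap (𝓞 F) F) a' = (d : F) * a from ha]
    show (d : F) ^ 3 * ((d : F) * a) = _
    ring
  have e2 : (((d ^ 5 * b' : 𝓞 F)) : F) = (d : F) ^ 6 * b := by
    show algebraMap (𝓞 F) F (d ^ 5 * b') = _
    rw [map_mul, map_pow, show (algebraMap (𝓞 F) F) b' = (d : F) * b from hb]
    show (d : F) ^ 5 * ((d : F) * b) = _
    ring
  rw [e1, e2]
  exact h2

/-! ### the height -/

omit [NumberField F] in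
theorem factor_scale (v : InfinitePlace F) (u a b : F) :
    max ((v (u ^ 4 * a) ^ v.mult) ^ 3) ((v (u ^ 6 * b) ^ v.mult) ^ 2) =
      (v u ^ v.mult) ^ 12 * max ((v a ^ v.mult) ^ 3) ((v b ^ v.mult) ^ 2) := by
  rw [mul_max_of_nonneg _ _ (by positivity)]
  congr 1
  · rw [map_mul, map_pow]
    ring
  · rw [map_mul, map_pow]
    ring

theorem modelHeight_scale {q q' : 𝓞 F × 𝓞 F} {u : F} (h1 : (q'.1 : F) = u ^ 4 * q.1)
    (h2 : (q'.2 : F) = u ^ 6 * q.2) :
    modelHeight q' = |(Algebra.norm ℚ u : ℝ)| ^ 12 * modelHeight q := by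
  unfold modelHeight
  rw [h1, h2]
  simp only [factor_scale]
  rw [Finset.prod_mul_distrib, Finset.prod_pow, InfinitePlace.prod_eq_abs_norm]
  push_cast
  rfl

theorem modelHeight_pos {A : EllipticCurves F} {q : 𝓞 F × 𝓞 F} (h : q ∈ models A) :
    0 < modelHeight q := by
  refine Finset.prod_pos fun v _ => ?_
  rcases models_ne h with h1 | h1
  · refine lt_max_of_lt_left ?_
    have h2 : 0 < v (q.1 : F) := InfinitePlace.pos_iff.2 fun h0 => h1 (RingOfIntegers.ext h0)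
    positivity
  · refine lt_max_of_lt_right ?_
    have h2 : 0 < v (q.2 : F) := InfinitePlace.pos_iff.2 fun h0 => h1 (RingOfIntegers.ext h0)
    positivity

/-- a natural number which scales in the same way -/
noncomputable def mm (q : 𝓞 F × 𝓞 F) : ℕ :=
  (Algebra.norm ℤ q.1).natAbs ^ 3 + (Algebra.norm ℤ q.2).natAbs ^ 2

theorem mm_cast (q : 𝓞 F × 𝓞 F) : (mm q : ℝ) =
    |(Algebra.norm ℚ (q.1 : F) : ℝ)| ^ 3 + |(Algebra.norm ℚ (q.2 : F) : ℝ)| ^ 2 := by
  have h : ∀ x : 𝓞 F, (((Algebra.norm ℤ x).natAbs : ℕ) : ℝ) = |(Algebra.norm ℚ (x : F) : ℝ)| := by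
    intro x
    rw [Nat.cast_natAbs, ← Algebra.coe_norm_int]
    push_cast
    rfl
  unfold mm
  push_cast
  rw [h, h]

theorem mm_pos {A : EllipticCurves F} {q : 𝓞 F × 𝓞 F} (h : q ∈ models A) : 0 < mm q := by
  unfold mm
  rcases models_ne h with h1 | h1
  · have h2 : Algebra.norm ℤ q.1 ≠ 0 := Algebra.norm_ne_zero_iff.2 h1
    have : 0 < (Algebra.norm ℤ q.1).natAbs := Int.natAbs_pos.2 h2
    positivity
  · have h2 : Algebra.norm ℤ q.2 ≠ 0 := Algebra.norm_ne_zero_iff.2 h1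
    have : 0 < (Algebra.norm ℤ q.2).natAbs := Int.natAbs_pos.2 h2
    positivity

theorem mm_scale {q q' : 𝓞 F × 𝓞 F} {u : F} (h1 : (q'.1 : F) = u ^ 4 * q.1)
    (h2 : (q'.2 : F) = u ^ 6 * q.2) :
    (mm q' : ℝ) = |(Algebra.norm ℚ u : ℝ)| ^ 12 * mm q := by
  rw [mm_cast, mm_cast, h1, h2, map_mul, map_pow, map_mul, map_pow]
  push_cast
  rw [abs_mul, abs_mul, abs_pow, abs_pow]
  ring

/-- The height is attained: it is the minimum over the models. -/
theorem height_attained (A : EllipticCurves F) : ∃ q ∈ models A, height A = modelHeight q ∧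
    ∀ q' ∈ models A, modelHeight q ≤ modelHeight q' := by
  -- a model with the least `mm`
  obtain ⟨q₀, hq₀⟩ := models_nonempty A
  have hex : ∃ m : ℕ, ∃ q ∈ models A, mm q = m := ⟨_, q₀, hq₀, rfl⟩
  obtain ⟨q, hq, hm⟩ := Nat.find_spec hex
  have hmin : ∀ q' ∈ models A, mm q ≤ mm q' := by
    intro q' hq'
    rw [hm]
    exact Nat.find_min' hex ⟨q', hq', rfl⟩
  have hle : ∀ q' ∈ models A, modelHeight q ≤ modelHeight q' := by
    intro q' hq'
    obtain ⟨u, h1, h2⟩ := models_rel hq hq'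
    rw [modelHeight_scale h1 h2]
    have h3 := mm_scale h1 h2
    have h4 : (mm q : ℝ) ≤ mm q' := by exact_mod_cast hmin q' hq'
    have h5 : (0 : ℝ) < mm q := by exact_mod_cast mm_pos hq
    rw [h3] at h4
    have h6 : 1 ≤ |(Algebra.norm ℚ (u : F) : ℝ)| ^ 12 := by
      by_contra hcon
      rw [not_le] at hcon
      nlinarith
    exact le_mul_of_one_le_left (modelHeight_pos hq).le h6
  refine ⟨q, hq, ?_, hle⟩
  unfold height
  refine IsLeast.csInf_eq ⟨⟨q, hq, rfl⟩, ?_⟩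
  rintro _ ⟨q', hq', rfl⟩
  exact hle q' hq'

theorem height_le_iff (A : EllipticCurves F) (X : ℝ) :
    height A ≤ X ↔ ∃ q ∈ models A, modelHeight q ≤ X := by
  obtain ⟨q, hq, h1, h2⟩ := height_attained A
  constructor
  · intro h
    exact ⟨q, hq, h1 ▸ h⟩
  · rintro ⟨q', hq', h⟩
    rw [h1]
    exact (h2 q' hq').trans h

end nf

end Pool.Agent.T9h58.Sel
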