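import Pool.Agent.N783.PF.Final
import Pool.Agent.H715R2.Units

/-!
# Counting: pairs of integers of a number field in boxes, unbalanced pairs, units

`Bd x R`: all conjugates of `x` are at most `R` in absolute value.
-/

set_option autoImplicit false

open Polynomial IsDedekindDomain NumberField
open scoped Classical

namespace Pool.Agent.T9h58.Sel

open Pool.Agent.N783.PF (Bd Ht SelZero Min fF Good)

section

variable (F : Type) [Field F] [NumberField F]

/-- The integers in a box. -/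
theorem pts_fin (R : ℝ) : {a : 𝓞 F | Bd (a : F) R}.Finite := by
  obtain ⟨-, C, hC, h1, h2⟩ := Pool.Agent.N490.PF.pts F
  have h3 := (h2 ⊤ 0 (|R|) top_ne_bot (abs_nonneg R)).1
  refine h3.subset fun a ha => ⟨Submodule.mem_top, fun σ => (ha σ).trans (le_abs_self R)⟩

/-- The number of the integers in a box. -/
theorem pts_card : ∃ C : ℝ, 0 < C ∧ ∀ R : ℝ, 1 ≤ R →
    ({a : 𝓞 F | Bd (a : F) R}.ncard : ℝ) ≤ C * R ^ Module.finrank ℚ F := by
  obtain ⟨-, C, hC, h1, h2⟩ := Pool.Agent.N490.PF.pts F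
  refine ⟨2 * C, by positivity, fun R hR => ?_⟩
  have h3 := (h2 ⊤ 0 R top_ne_bot (by linarith)).2
  rw [Ideal.absNorm_top, Nat.cast_one, div_one] at h3
  have h4 : {a : 𝓞 F | Bd (a : F) R} = {a : 𝓞 F | a - 0 ∈ (⊤ : Ideal (𝓞 F)) ∧ Bd (a : F) R} := by
    ext a
    exact ⟨fun h => ⟨Submodule.mem_top, h⟩, fun h => h.2⟩
  rw [h4]
  refine h3.trans ?_
  have h5 : 1 ≤ R ^ Module.finrank ℚ F := one_le_pow₀ hR
  nlinarith

/-- The number of the integers in a box with one small conjugate. -/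
theorem pts_small : ∃ C : ℝ, 0 < C ∧ ∀ (R η : ℝ) (σ₀ : F →+* ℂ), 1 ≤ R → 0 < η → η ≤ 1 →
    ({a : 𝓞 F | Bd (a : F) R ∧ ‖σ₀ (a : F)‖ ≤ η * R}.ncard : ℝ) ≤
      C * (η + 1 / R) * R ^ Module.finrank ℚ F := by
  obtain ⟨C, hC, h⟩ := pts_card F
  refine ⟨2 * C * 2 ^ Module.finrank ℚ F, by positivity, fun R η σ₀ hR hη hη1 => ?_⟩
  set n := Module.finrank ℚ F with hn
  set m : ℕ := ⌊2 * η * R⌋₊ + 1 with hm
  have hm1 : 2 * η * R < m := by
    rw [hm]
    push_cast
    exact Nat.lt_floor_add_one _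
  have hm2 : (m : ℝ) ≤ 2 * η * R + 1 := by
    rw [hm]
    push_cast
    have := Nat.floor_le (show 0 ≤ 2 * η * R by positivity)
    linarith
  have hm0 : (0 : ℝ) < m := by rw [hm]; positivity
  set J : ℕ := ⌊R / m⌋₊ with hJ
  have hJ1 : (J : ℝ) * m ≤ R := by
    have := Nat.floor_le (show 0 ≤ R / m by positivity)
    rw [← hJ] at this
    rwa [le_div_iff₀ hm0] at this
  have hJ2 : R / m ≤ (J : ℝ) + 1 := (Nat.lt_floor_add_one _).le
  set S : Set (𝓞 F) := {a : 𝓞 F | Bd (a : F) R ∧ ‖σ₀ (a : F)‖ ≤ η * R} with hS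
  have hSf : S.Finite := (pts_fin F R).subset fun a ha => ha.1
  -- the map `(a, j) ↦ a + j m`
  have hcast : ∀ (σ : F →+* ℂ) (a : 𝓞 F) (j : ℕ),
      σ ((a + ((j * m : ℕ) : 𝓞 F) : 𝓞 F) : F) = σ (a : F) + ((j * m : ℕ) : ℂ) := by
    intro σ a j
    have e1 : ((a + ((j * m : ℕ) : 𝓞 F) : 𝓞 F) : F) = (a : F) + ((j * m : ℕ) : F) := by
      show algebraMap (𝓞 F) F (a + ((j * m : ℕ) : 𝓞 F)) = _
      rw [map_add, map_natCast]
    rw [e1, map_add, map_natCast]
  have hmap : ∀ p ∈ S ×ˢ (↑(Finset.range (J + 1)) : Set ℕ),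
      (fun p : 𝓞 F × ℕ => p.1 + ((p.2 * m : ℕ) : 𝓞 F)) p ∈ {a : 𝓞 F | Bd (a : F) (2 * R)} := by
    rintro ⟨a, j⟩ ⟨ha, hj⟩
    intro σ
    show ‖σ ((a + ((j * m : ℕ) : 𝓞 F) : 𝓞 F) : F)‖ ≤ 2 * R
    rw [hcast]
    refine (norm_add_le _ _).trans ?_
    have h1 : ‖σ (a : F)‖ ≤ R := ha.1 σ
    have h2 : ‖((j * m : ℕ) : ℂ)‖ ≤ R := by
      rw [Complex.norm_natCast]
      push_cast
      have hj' : j ≤ J := by
        have : j ∈ Finset.range (J + 1) := hj
        rw [Finset.mem_range] at this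
        omega
      have : (j : ℝ) ≤ J := by exact_mod_cast hj'
      calc (j : ℝ) * m ≤ J * m := by gcongr
        _ ≤ R := hJ1
    linarith
  have hinj : Set.InjOn (fun p : 𝓞 F × ℕ => p.1 + ((p.2 * m : ℕ) : 𝓞 F))
      (S ×ˢ (↑(Finset.range (J + 1)) : Set ℕ)) := by
    have key : ∀ (a a' : 𝓞 F) (j j' : ℕ), a ∈ S → a' ∈ S →
        a + ((j * m : ℕ) : 𝓞 F) = a' + ((j' * m : ℕ) : 𝓞 F) → j' ≤ j := by
      intro a a' j j' ha ha' h
      by_contra hcon
      rw [not_le] at hcon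
      have e := congrArg (fun x : 𝓞 F => σ₀ (x : F)) h
      simp only [hcast] at e
      have e2 : σ₀ (a : F) - σ₀ (a' : F) = (((j' - j) * m : ℕ) : ℂ) := by
        have e3 : ((j' * m : ℕ) : ℂ) = (((j' - j) * m : ℕ) : ℂ) + ((j * m : ℕ) : ℂ) := by
          rw [← Nat.cast_add]
          congr 1
          rw [← Nat.add_mul]
          congr 1
          omega
        rw [e3] at e
        linear_combination e
      have e4 : ‖σ₀ (a : F) - σ₀ (a' : F)‖ ≤ 2 * η * R := by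
        refine (norm_sub_le _ _).trans ?_
        have := ha.2
        have := ha'.2
        linarith
      rw [e2, Complex.norm_natCast] at e4
      have e5 : (m : ℝ) ≤ (((j' - j) * m : ℕ) : ℝ) := by
        exact_mod_cast Nat.le_mul_of_pos_left m (by omega)
      linarith
    rintro ⟨a, j⟩ ⟨ha, -⟩ ⟨a', j'⟩ ⟨ha', -⟩ h
    have h1 := key a a' j j' ha ha' h
    have h2 := key a' a j' j ha' ha h.symm
    have h3 : j = j' := le_antisymm h2 h1
    subst h3
    have h4 : a = a' := add_right_cancel (show a + ((j * m : ℕ) : 𝓞 F) = a' + _ from h)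
    rw [h4]
  have hcard := Set.ncard_le_ncard_of_injOn _ hmap hinj (pts_fin F (2 * R))
  rw [Set.ncard_prod, Set.ncard_coe_finset, Finset.card_range] at hcard
  have hcard' : (S.ncard : ℝ) * (J + 1) ≤ C * (2 * R) ^ n := by
    have h3 := h (2 * R) (by linarith)
    refine le_trans ?_ h3
    exact_mod_cast hcard
  have hRm : 0 < R / m := by positivity
  have h5 : (S.ncard : ℝ) * (R / m) ≤ C * (2 * R) ^ n :=
    (mul_le_mul_of_nonneg_left hJ2 (Nat.cast_nonneg _)).trans hcard'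
  have h6 : (S.ncard : ℝ) ≤ C * (2 * R) ^ n * (m / R) := by
    have e : (S.ncard : ℝ) = (S.ncard : ℝ) * (R / m) * (m / R) := by
      field_simp
    rw [e]
    exact mul_le_mul_of_nonneg_right h5 (by positivity)
  refine h6.trans ?_
  have h7 : (m : ℝ) / R ≤ 2 * (η + 1 / R) := by
    rw [div_le_iff₀ (by linarith)]
    have : 2 * (η + 1 / R) * R = 2 * η * R + 2 := by
      field_simp
    rw [this]
    linarith
  calc C * (2 * R) ^ n * (m / R) ≤ C * (2 * R) ^ n * (2 * (η + 1 / R)) := by gcongr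
    _ = 2 * C * 2 ^ n * (η + 1 / R) * R ^ n := by
        rw [mul_pow]
        ring

end

end Pool.Agent.T9h58.Sel
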