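import Pool.Agent.TH115.GD.Defs

/-!
# The `p^∞`-Selmer group of an elliptic curve; elliptic curves up to isomorphism

`Pt W L` is the group `W(L)`, `act W φ` the homomorphism `W(L) → W(L')` given by `φ : L → L'`, `Sep K` a
separable closure of `K`, and `IsCoc W f` says that `f` is a continuous cocycle of the absolute Galois
group of `K` with values in `W(Sep K)` (see `TH115/GD/Defs.lean`).
-/

set_option autoImplicit false

open WeierstrassCurve IsDedekindDomain NumberField
open Pool.Agent.TH115.GD (Pt act rs IsCoc Sep)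
open scoped Classical

namespace Pool.Agent.T9h58.Sel

section selmer

variable {K : Type} [Field K]

/-- The functions on the absolute Galois group of `K` with values in the group `W(K^sep)`. -/
abbrev Cochain (W : WeierstrassCurve K) : Type := (Sep K ≃ₐ[K] Sep K) → Pt W (Sep K)

/-- The restriction of `f` to the absolute Galois group of the extension `L` of `K` is a coboundary with
values in `W(L^sep)`. (It is required for every embedding of the separable closures.) -/
def LocallyTrivial (W : WeierstrassCurve K) (L : Type) [Field L] [Algebra K L] (f : Cochain W) :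
    Prop :=
  ∀ ι : Sep K →ₐ[K] Sep L, ∃ P : Pt W (Sep L), ∀ (τ : Sep L ≃ₐ[L] Sep L) (σ : Sep K ≃ₐ[K] Sep K),
    (∀ x, τ (ι x) = ι (σ x)) → act W ι (f σ) = act W (rs K τ) P - P

/-- The order of `P` is a power of `p`. -/
def IsPrimary (p : ℕ) {A : Type} [AddCommGroup A] (P : A) : Prop := ∃ n : ℕ, p ^ n • P = 0

variable (p : ℕ) (W : WeierstrassCurve K)

/-- `f` is a continuous cocycle with values in the group `W[p^∞]` of the points of `p`-power order, and its
class in `H¹(L, W)` is zero for all the extensions `L` of the family (the completions of `K`). -/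
structure IsSelmerCocycle {I : Type} (L : I → Type) [∀ i, Field (L i)] [∀ i, Algebra K (L i)]
    (f : Cochain W) : Prop where
  cocycle : IsCoc W f
  primary : ∀ σ, IsPrimary p (f σ)
  local_trivial : ∀ i, LocallyTrivial W (L i) f

/-- `f` is the coboundary of a point of `W[p^∞]`. -/
def IsCoboundary (f : Cochain W) : Prop :=
  ∃ P : Pt W (Sep K), IsPrimary p P ∧ ∀ σ, f σ = act W (rs K σ) P - P

end selmer

section group

variable {K : Type} [Field K]

theorem IsPrimary.zero (p : ℕ) {A : Type} [AddCommGroup A] : IsPrimary p (0 : A) := ⟨0, by simp⟩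

theorem IsPrimary.neg {p : ℕ} {A : Type} [AddCommGroup A] {P : A} (h : IsPrimary p P) :
    IsPrimary p (-P) := by
  obtain ⟨n, hn⟩ := h
  exact ⟨n, by rw [smul_neg, hn, neg_zero]⟩

theorem IsPrimary.add {p : ℕ} {A : Type} [AddCommGroup A] {P Q : A} (h : IsPrimary p P)
    (h' : IsPrimary p Q) : IsPrimary p (P + Q) := by
  obtain ⟨n, hn⟩ := h
  obtain ⟨m, hm⟩ := h'
  refine ⟨n + m, ?_⟩
  rw [smul_add, pow_add, mul_comm, mul_smul, hn, smul_zero, zero_add, mul_comm, mul_smul, hm,
    smul_zero]

variable (p : ℕ) (W : WeierstrassCurve K) {I : Type} (L : I → Type) [∀ i, Field (L i)]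
  [∀ i, Algebra K (L i)]

/-- The group of the cocycles with values in `W[p^∞]` which are trivial in `H¹(L, W)` for all the
extensions `L` of the family. -/
def selmerCocycles : AddSubgroup (Cochain W) where
  carrier := {f | IsSelmerCocycle p W L f}
  zero_mem' := by
    refine ⟨⟨IsLocallyConstant.const _, fun σ τ => ?_⟩, fun σ => IsPrimary.zero p, fun i ι => ⟨0, ?_⟩⟩
    · show (0 : Pt W (Sep K)) = 0 + act W (rs K σ) 0
      rw [map_zero, add_zero]
    · intro τ σ _
      show act W ι 0 = _
      rw [map_zero, map_zero, sub_zero]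
  add_mem' := by
    rintro f g ⟨hf1, hf2, hf3⟩ ⟨hg1, hg2, hg3⟩
    refine ⟨⟨hf1.lc.add hg1.lc, fun σ τ => ?_⟩, fun σ => (hf2 σ).add (hg2 σ), fun i ι => ?_⟩
    · show f (σ * τ) + g (σ * τ) = f σ + g σ + act W (rs K σ) (f τ + g τ)
      rw [hf1.mul, hg1.mul, map_add]
      abel
    · obtain ⟨P, hP⟩ := hf3 i ι
      obtain ⟨Q, hQ⟩ := hg3 i ι
      refine ⟨P + Q, fun τ σ h => ?_⟩
      show act W ι (f σ + g σ) = _
      rw [map_add, map_add, hP τ σ h, hQ τ σ h]
      abel
  neg_mem' := by
    rintro f ⟨hf1, hf2, hf3⟩
    refine ⟨⟨hf1.lc.neg, fun σ τ => ?_⟩, fun σ => (hf2 σ).neg, fun i ι => ?_⟩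
    · show -f (σ * τ) = -f σ + act W (rs K σ) (-f τ)
      rw [hf1.mul, map_neg]
      abel
    · obtain ⟨P, hP⟩ := hf3 i ι
      refine ⟨-P, fun τ σ h => ?_⟩
      show act W ι (-f σ) = _
      rw [map_neg, map_neg, hP τ σ h]
      abel

/-- The group of the coboundaries of the points of `W[p^∞]`. -/
def coboundaries : AddSubgroup (Cochain W) where
  carrier := {f | IsCoboundary p W f}
  zero_mem' := ⟨0, IsPrimary.zero p, fun σ => by
    show (0 : Pt W (Sep K)) = act W (rs K σ) 0 - 0
    rw [map_zero, sub_zero]⟩
  add_mem' := by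
    rintro f g ⟨P, hP1, hP⟩ ⟨Q, hQ1, hQ⟩
    refine ⟨P + Q, hP1.add hQ1, fun σ => ?_⟩
    show f σ + g σ = _
    rw [hP, hQ, map_add]
    abel
  neg_mem' := by
    rintro f ⟨P, hP1, hP⟩
    refine ⟨-P, hP1.neg, fun σ => ?_⟩
    show -f σ = _
    rw [hP, map_neg]
    abel

/-- The Selmer group `Sel_{p^∞}(W / K) = ker (H¹(K, W[p^∞]) → ∏ H¹(L, W))`, the product over the
extensions `L` of the family, the completions of `K` at all its places. -/
abbrev SelmerGroup : Type :=
  selmerCocycles p W L ⧸ (coboundaries p W).addSubgroupOf (selmerCocycles p W L)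

end group

section classes

/-- Isomorphism of elliptic curves over `K` given by Weierstrass equations with nonzero discriminant: an
admissible change of variables over `K`. -/
instance isoSetoid (K : Type) [Field K] : Setoid {W : WeierstrassCurve K // W.Δ ≠ 0} where
  r W W' := ∃ C : VariableChange K, C • W.1 = W'.1
  iseqv :=
    { refl := fun W => ⟨1, one_smul _ _⟩
      symm := by
        rintro W W' ⟨C, hC⟩
        exact ⟨C⁻¹, by rw [← hC, smul_smul, inv_mul_cancel, one_smul]⟩
      trans := by
        rintro W W' W'' ⟨C, hC⟩ ⟨D, hD⟩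
        exact ⟨D * C, by rw [mul_smul, hC, hD]⟩ }

/-- The elliptic curves over `K` up to `K`-isomorphism. -/
abbrev EllipticCurves (K : Type) [Field K] : Type := Quotient (isoSetoid K)

/-- The Weierstrass equation `W` is an equation of the elliptic curve `A`. -/
def IsEquation {K : Type} [Field K] (A : EllipticCurves K) (W : WeierstrassCurve K) : Prop :=
  ∃ h : W.Δ ≠ 0, (⟦⟨W, h⟩⟧ : EllipticCurves K) = A

end classes

section numberfield

variable (F : Type) [Field F] [NumberField F]

/-- The completions of the number field `F` at its places: the maximal ideals of the ring of integers and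
the infinite places. -/
def Completion : HeightOneSpectrum (𝓞 F) ⊕ InfinitePlace F → Type
  | .inl v => v.adicCompletion F
  | .inr v => v.Completion

noncomputable instance Completion.field : ∀ v, Field (Completion F v)
  | .inl v => (inferInstance : Field (v.adicCompletion F))
  | .inr v => (inferInstance : Field v.Completion)

noncomputable instance Completion.algebra : ∀ v, Algebra F (Completion F v)
  | .inl v => (inferInstance : Algebra F (v.adicCompletion F))
  | .inr v => (inferInstance : Algebra F v.Completion)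

variable {F}

/-- `∏ max (|a|_v ^ 3, |b|_v ^ 2)` over the infinite places `v`, with the normalised absolute values
`|x|_v = |σ x|` for real `v` and `|x|_v = |σ x| ^ 2` for complex `v`. -/
noncomputable def modelHeight (q : 𝓞 F × 𝓞 F) : ℝ :=
  ∏ v : InfinitePlace F, max ((v (q.1 : F) ^ v.mult) ^ 3) ((v (q.2 : F) ^ v.mult) ^ 2)

/-- The pairs `(a, b)` of integers of `F` for which `y ^ 2 = x ^ 3 + a x + b` is an equation of `A`. -/
def models (A : EllipticCurves F) : Set (𝓞 F × 𝓞 F) :=
  {q | IsEquation A ⟨0, 0, 0, (q.1 : F), (q.2 : F)⟩}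

/-- The height `H(A)`. -/
noncomputable def height (A : EllipticCurves F) : ℝ := sInf (modelHeight '' models A)

/-- `Sel_{p^∞}(A / F) = 0`. -/
def TrivialSelmer (p : ℕ) (A : EllipticCurves F) : Prop :=
  ∀ W : WeierstrassCurve F, IsEquation A W → Subsingleton (SelmerGroup p W (Completion F))

end numberfield

end Pool.Agent.T9h58.Sel
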