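import Pool.Agent.T9h58.Sel.Def
import Pool.Agent.Y655.XT.Shavc
import Pool.Agent.TH115.GD.Gal

/-!
# The Selmer group: vanishing, independence of the equation
-/

set_option autoImplicit false

open WeierstrassCurve IsDedekindDomain NumberField
open Pool.Agent.TH115.GD (Pt act rs incl IsCoc Sep)
open scoped Classical

namespace Pool.Agent.T9h58.Sel

section iso

variable {K : Type} [Field K]

/-- Compatible isomorphisms of the groups of points over all extensions. -/
structure PIso (W W' : WeierstrassCurve K) where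
  e : ∀ (L : Type) [Field L] [Algebra K L], Pt W' L ≃+ Pt W L
  ac : ∀ {F L : Type} [Field F] [Algebra K F] [Field L] [Algebra K L] (φ : F →ₐ[K] L)
    (P : Pt W' F), e L (act W' φ P) = act W φ (e F P)

/-- The isomorphisms given by a change of variables. -/
noncomputable def pisoOf {W W' : WeierstrassCurve K} (C : VariableChange K) (h : C • W = W')
    (hD : W'.Δ ≠ 0) : PIso W W' where
  e := fun L _ _ => (Pool.Agent.Y655.XT.isoVR (Pool.Agent.Y655.XT.vr_of_smul h) hD).e L
  ac := fun φ P => (Pool.Agent.Y655.XT.isoVR (Pool.Agent.Y655.XT.vr_of_smul h) hD).ac φ P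

theorem PIso.primary {W W' : WeierstrassCurve K} (I : PIso W W') {p : ℕ} {L : Type} [Field L]
    [Algebra K L] {P : Pt W' L} (h : IsPrimary p P) : IsPrimary p (I.e L P) := by
  obtain ⟨n, hn⟩ := h
  exact ⟨n, by rw [← map_nsmul, hn, map_zero]⟩

theorem PIso.primary_symm {W W' : WeierstrassCurve K} (I : PIso W W') {p : ℕ} {L : Type} [Field L]
    [Algebra K L] {P : Pt W L} (h : IsPrimary p P) : IsPrimary p ((I.e L).symm P) := by
  obtain ⟨n, hn⟩ := h
  exact ⟨n, by rw [← map_nsmul, hn, map_zero]⟩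

variable {p : ℕ} {I : Type} {L : I → Type} [∀ i, Field (L i)] [∀ i, Algebra K (L i)]

theorem subsingleton_iff {W : WeierstrassCurve K} : Subsingleton (SelmerGroup p W L) ↔
    ∀ f : Cochain W, IsSelmerCocycle p W L f → IsCoboundary p W f := by
  constructor
  · intro h f hf
    have h1 : ((⟨f, hf⟩ : selmerCocycles p W L) : SelmerGroup p W L) = 0 := Subsingleton.elim _ _
    rw [QuotientAddGroup.eq_zero_iff, AddSubgroup.mem_addSubgroupOf] at h1
    exact h1
  · intro h
    refine subsingleton_of_forall_eq 0 fun x => ?_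
    obtain ⟨f, rfl⟩ := QuotientAddGroup.mk_surjective x
    rw [QuotientAddGroup.eq_zero_iff, AddSubgroup.mem_addSubgroupOf]
    exact h f.1 f.2

theorem selmer_iso {W W' : WeierstrassCurve K} (J : PIso W W')
    (h : Subsingleton (SelmerGroup p W L)) : Subsingleton (SelmerGroup p W' L) := by
  rw [subsingleton_iff] at h ⊢
  intro f ⟨⟨h1, h2⟩, h3, h4⟩
  obtain ⟨P, hP, hf⟩ := h (fun σ => J.e _ (f σ)) ⟨⟨h1.comp _, fun σ τ => by
      show J.e _ (f (σ * τ)) = J.e _ (f σ) + act W (rs K σ) (J.e _ (f τ))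
      rw [h2, map_add, J.ac]⟩, fun σ => J.primary (h3 σ), fun i ι => by
      obtain ⟨Q, hQ⟩ := h4 i ι
      refine ⟨J.e _ Q, fun τ σ hτ => ?_⟩
      show act W ι (J.e _ (f σ)) = _
      rw [← J.ac, hQ τ σ hτ, map_sub, J.ac]⟩
  refine ⟨(J.e _).symm P, J.primary_symm hP, fun σ => ?_⟩
  apply (J.e _).injective
  have h5 : J.e (Sep K) (f σ) = act W (rs K σ) P - P := hf σ
  rw [h5, map_sub, J.ac, AddEquiv.apply_symm_apply]

end iso

section vanish

variable {K : Type} [Field K]

theorem odd_smul_surj {G : Type} [AddCommGroup G] [Finite G] (h : Odd (Nat.card G)) (n : ℕ) (P : G) :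
    ∃ Q : G, 2 ^ n • Q = P := by
  have hc : (Nat.card G).Coprime (2 ^ n) := Nat.Coprime.pow_right n (Nat.coprime_two_right.2 h)
  have hs : Function.Injective (fun Q : G => (2 ^ n : ℕ) • Q) := by
    intro Q Q' hQ
    have h1 : (2 ^ n : ℕ) • (Q - Q') = 0 := by
      rw [smul_sub]
      exact sub_eq_zero.2 hQ
    have h2 : addOrderOf (Q - Q') ∣ 2 ^ n := addOrderOf_dvd_of_nsmul_eq_zero h1
    have h3 : addOrderOf (Q - Q') ∣ Nat.card G := addOrderOf_dvd_natCard _
    have h4 : addOrderOf (Q - Q') ∣ 1 := by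
      rw [← hc]
      exact Nat.dvd_gcd h3 h2
    have h5 := Nat.dvd_one.1 h4
    rw [AddMonoid.addOrderOf_eq_one_iff] at h5
    exact sub_eq_zero.1 h5
  exact Finite.injective_iff_surjective.1 hs P

/-- The 2-power Selmer group is zero if the group of rational points is finite of odd order and the
2-primary part of the Tate-Shafarevich group is zero. -/
theorem selmer_trivial (W : WeierstrassCurve K) {I : Type} (L : I → Type) [∀ i, Field (L i)]
    [∀ i, Algebra K (L i)] (hfin : Finite (Pt W K)) (hodd : Odd (Nat.card (Pt W K)))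
    (hsha : ∀ f : Cochain W, IsCoc W f → (∀ i, LocallyTrivial W (L i) f) →
      (∃ n : ℕ, ∀ σ, 2 ^ n • f σ = 0) → ∃ Q : Pt W (Sep K), ∀ σ, f σ = act W (rs K σ) Q - Q) :
    Subsingleton (SelmerGroup 2 W L) := by
  haveI : Algebra.IsSeparable K (Sep K) := IsSepClosure.separable
  haveI : IsGalois K (Sep K) := inferInstance
  rw [subsingleton_iff]
  intro f ⟨h1, h2, h3⟩
  -- a common exponent
  have hrange : (Set.range f).Finite := h1.lc.range_finite
  have hex : ∃ n : ℕ, ∀ σ, 2 ^ n • f σ = 0 := by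
    choose n hn using h2
    have hex : ∀ P ∈ Set.range f, ∃ n : ℕ, 2 ^ n • P = 0 := by
      rintro _ ⟨σ, rfl⟩
      exact ⟨n σ, hn σ⟩
    choose! m hm using hex
    obtain ⟨M, hM⟩ := (hrange.image m).bddAbove
    refine ⟨M, fun σ => ?_⟩
    have h5 : m (f σ) ≤ M := hM ⟨f σ, ⟨σ, rfl⟩, rfl⟩
    obtain ⟨k, hk⟩ := Nat.exists_eq_add_of_le h5
    rw [hk, pow_add, mul_comm, mul_smul, hm _ ⟨σ, rfl⟩, smul_zero]
  obtain ⟨Q, hQ⟩ := hsha f h1 h3 hex
  obtain ⟨n, hn⟩ := hex
  -- `2 ^ n Q` is rational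
  obtain ⟨R, hR⟩ := Pool.Agent.TH115.GD.fixed_point (K := K) (F := K) W (2 ^ n • Q) (fun σ => by
    have h5 := hn σ
    rw [hQ, smul_sub, sub_eq_zero] at h5
    rw [map_nsmul]
    exact h5)
  obtain ⟨S, hS⟩ := odd_smul_surj hodd n R
  refine ⟨Q - act W (incl K K (Sep K)) S, ⟨n, ?_⟩, fun σ => ?_⟩
  · rw [smul_sub, ← map_nsmul, hS, hR, sub_self]
  · rw [hQ, map_sub]
    have h6 : act W (rs K σ) (act W (incl K K (Sep K)) S) = act W (incl K K (Sep K)) S :=
      Pool.Agent.TH115.GD.rs_act_incl _ σ S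
    rw [h6]
    abel

end vanish

end Pool.Agent.T9h58.Sel
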