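import Pool.Agent.T9h58.Sel.FFDef
import Pool.Agent.T9h58.Sel.Grp
import Pool.Agent.T9h58.Sel.Cls
import Pool.Agent.N874.PP.Final

/-!
# Counting elliptic curves over `k(t)` up to isomorphism, and those with trivial Selmer group
-/

set_option autoImplicit false
set_option linter.style.haveILetI false

open WeierstrassCurve IsDedekindDomain Polynomial WithZero
open Pool.Agent.TH115.GD (Pt act rs incl IsCoc Sep LocTriv CompInf Comp ShaTwo)
open scoped Classical

namespace Pool.Agent.T9h58.Sel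

section local_conditions

variable {K : Type} [Field K]

theorem LocallyTrivial.toLocTriv {W : WeierstrassCurve K} {L : Type} [Field L] [Algebra K L]
    {f : Cochain W} (h : LocallyTrivial W L f) : LocTriv W L (Sep L) f := by
  haveI : Algebra.IsSeparable K (Sep K) := IsSepClosure.separable
  let ι : Sep K →ₐ[K] Sep L := IsSepClosed.lift
  obtain ⟨P, hP⟩ := h ι
  refine ⟨ι, P, fun τ σ hτ => ?_⟩
  have e : ι.restrictScalars K = ι := AlgHom.ext fun _ => rfl
  rw [e]
  exact hP τ σ hτ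

theorem LocallyTrivial.inst {W : WeierstrassCurve K} {L : Type} [Field L] {i₁ i₂ : Algebra K L}
    (h : ∀ x : K, @algebraMap K L _ _ i₁ x = @algebraMap K L _ _ i₂ x) {f : Cochain W}
    (hf : @LocallyTrivial K _ W L _ i₁ f)
    (t1 : @IsScalarTower K L (Sep L) i₂.toSMul (Pool.Agent.TH115.GD.sepAlgebra L L).toSMul
      (@Pool.Agent.TH115.GD.sepAlgebra L _ K _ i₂).toSMul)
    (t2 : @IsScalarTower K K (Sep L) (Algebra.id K).toSMul
      (@Pool.Agent.TH115.GD.sepAlgebra L _ K _ i₁).toSMul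
      (@Pool.Agent.TH115.GD.sepAlgebra L _ K _ i₂).toSMul) :
    @LocTriv K K (Sep K) _ _ _ (Algebra.id K) (Pool.Agent.TH115.GD.sepAlgebra K K)
      (Pool.Agent.TH115.GD.sepAlgebra K K) (Pool.Agent.TH115.GD.sepTower K K) W L (Sep L) _ _ i₂
      (Pool.Agent.TH115.GD.sepAlgebra L L) (@Pool.Agent.TH115.GD.sepAlgebra L _ K _ i₂)
      (@Pool.Agent.TH115.GD.sepAlgebra L _ K _ i₁) t1 t2 f := by
  have e : i₁ = i₂ := Algebra.algebra_ext _ _ h
  subst e
  exact hf.toLocTriv

end local_conditions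

section ff

variable {k K : Type} [Field k] [Field K] [Algebra k[X] K] [IsFractionRing k[X] K]

theorem trivialFF_of {W : WeierstrassCurve K} (hsha : ShaTwo k W) (hfin : Finite (Pt W K))
    (hodd : Odd (Nat.card (Pt W K))) : Subsingleton (SelmerGroup 2 W (CompletionFF k K)) := by
  refine selmer_trivial W _ hfin hodd fun f hf hl ⟨n, hn⟩ => hsha f hf ⟨fun v => ?_, ?_⟩ ⟨n, 0, ?_⟩
  · exact LocallyTrivial.inst (L := Comp k[X] K v)
      (i₁ := Pool.Agent.TH115.GD.compAlgebra k[X] K v)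
      (i₂ := Pool.Agent.TH115.GD.compAlgebra' k[X] K v K) (fun _ => rfl) (hl (some v)) _ _
  · exact LocallyTrivial.inst (L := CompInf k K)
      (i₁ := Pool.Agent.TH115.GD.compInfAlgebra k K)
      (i₂ := Pool.Agent.TH115.GD.compInfAlgebra' k K K) (fun _ => rfl) (hl none) _ _
  · intro σ
    rw [hn, map_zero, sub_zero]

theorem six_ne' (h6 : (6 : k) ≠ 0) : (6 : K) ≠ 0 := by
  have h : algebraMap k[X] K (C (6 : k)) = 6 := by
    rw [show (C (6 : k) : k[X]) = 6 from map_ofNat C 6, map_ofNat]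
  rw [← h]
  intro h0
  have h1 : (C (6 : k) : k[X]) = 0 := by
    apply IsFractionRing.injective k[X] K
    rw [h0, map_zero]
  exact h6 (by simpa using h1)

/-- the short equation -/
theorem short_eq (h6 : (6 : K) ≠ 0) (W : WeierstrassCurve K) :
    ∃ C : VariableChange K, C • W = sw (-(W.c₄ / 48)) (-(W.c₆ / 864)) := by
  have h2 := two_ne h6
  have h3 := three_ne h6
  have h12 : (12 : K) ≠ 0 := by
    have : (12 : K) = 2 * 6 := by norm_num
    rw [this]
    exact mul_ne_zero h2 h6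
  have h48 : (48 : K) ≠ 0 := by
    have : (48 : K) = 2 ^ 3 * 6 := by norm_num
    rw [this]
    exact mul_ne_zero (pow_ne_zero _ h2) h6
  have h864 : (864 : K) ≠ 0 := by
    have : (864 : K) = 2 ^ 2 * 6 ^ 3 := by norm_num
    rw [this]
    exact mul_ne_zero (pow_ne_zero _ h2) (pow_ne_zero _ h6)
  refine ⟨⟨1, -(W.b₂ / 12), -(W.a₁ / 2), -((W.a₃ - W.b₂ / 12 * W.a₁) / 2)⟩, ?_⟩
  ext
  · rw [variableChange_a₁]
    show ((1⁻¹ : Kˣ) : K) * (W.a₁ + 2 * -(W.a₁ / 2)) = 0
    field_simp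
    ring
  · rw [variableChange_a₂]
    show ((1⁻¹ : Kˣ) : K) ^ 2 * (W.a₂ - -(W.a₁ / 2) * W.a₁ + 3 * -(W.b₂ / 12) - (-(W.a₁ / 2)) ^ 2) = 0
    simp only [WeierstrassCurve.b₂, inv_one, Units.val_one, one_pow, one_mul]
    field_simp
    ring
  · rw [variableChange_a₃]
    show ((1⁻¹ : Kˣ) : K) ^ 3 * (W.a₃ + -(W.b₂ / 12) * W.a₁ +
      2 * -((W.a₃ - W.b₂ / 12 * W.a₁) / 2)) = 0
    simp only [inv_one, Units.val_one, one_pow, one_mul]
    field_simp
    ring
  · rw [variableChange_a₄]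
    simp only [WeierstrassCurve.c₄, WeierstrassCurve.b₂, WeierstrassCurve.b₄, inv_one,
      Units.val_one, one_pow, one_mul]
    field_simp
    ring
  · rw [variableChange_a₆]
    simp only [WeierstrassCurve.c₆, WeierstrassCurve.b₂, WeierstrassCurve.b₄,
      WeierstrassCurve.b₆, inv_one, Units.val_one, one_pow, one_mul]
    field_simp
    ring

end ff

end Pool.Agent.T9h58.Sel
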