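import Pool.Agent.T9h58.Sel.FF

/-!
# Counting elliptic curves over `k(t)`: both bounds
-/

set_option autoImplicit false
set_option linter.style.haveILetI false

open WeierstrassCurve IsDedekindDomain Polynomial WithZero
open Pool.Agent.TH115.GD (Pt act rs incl IsCoc Sep LocTriv CompInf Comp ShaTwo)
open Pool.Agent.N874.PP (Crv Good fin_box card_box)
open scoped Classical

namespace Pool.Agent.T9h58.Sel

section ff

variable {k K : Type} [Field k] [Field K] [Algebra k[X] K] [IsFractionRing k[X] K]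

/-! ### Models -/

theorem natDegree_C_mul_le' (c : k) {p : k[X]} {n : ℕ} (h : p.natDegree ≤ n) :
    (C c * p).natDegree ≤ n := (natDegree_C_mul_le c p).trans h

theorem deg_c4 {W : WeierstrassCurve k[X]} {d : ℕ} (h1 : W.a₁.natDegree ≤ d)
    (h2 : W.a₂.natDegree ≤ 2 * d) (h3 : W.a₃.natDegree ≤ 3 * d) (h4 : W.a₄.natDegree ≤ 4 * d) :
    W.c₄.natDegree ≤ 4 * d := by
  have hb2 : W.b₂.natDegree ≤ 2 * d := by
    unfold WeierstrassCurve.b₂
    refine (natDegree_add_le_of_le (m := 2 * d) (n := 2 * d) (natDegree_pow_le_of_le 2 h1) ?_).trans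
      (by simp)
    rw [show (4 : k[X]) = C (4 : k) from (map_ofNat C 4).symm]
    exact natDegree_C_mul_le' _ h2
  have hb4 : W.b₄.natDegree ≤ 4 * d := by
    unfold WeierstrassCurve.b₄
    refine (natDegree_add_le_of_le (m := 4 * d) (n := 4 * d) ?_ ?_).trans (by simp)
    · rw [show (2 : k[X]) = C (2 : k) from (map_ofNat C 2).symm]
      exact natDegree_C_mul_le' _ h4
    · exact (natDegree_mul_le_of_le h1 h3).trans (by omega)
  unfold WeierstrassCurve.c₄
  refine (natDegree_sub_le_of_le (m := 4 * d) (n := 4 * d) ?_ ?_).trans (by simp)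
  · exact (natDegree_pow_le_of_le 2 hb2).trans (by omega)
  · rw [show (24 : k[X]) = C (24 : k) from (map_ofNat C 24).symm]
    exact natDegree_C_mul_le' _ hb4

theorem deg_c6 {W : WeierstrassCurve k[X]} {d : ℕ} (h1 : W.a₁.natDegree ≤ d)
    (h2 : W.a₂.natDegree ≤ 2 * d) (h3 : W.a₃.natDegree ≤ 3 * d) (h4 : W.a₄.natDegree ≤ 4 * d)
    (h6 : W.a₆.natDegree ≤ 6 * d) : W.c₆.natDegree ≤ 6 * d := by
  have hb2 : W.b₂.natDegree ≤ 2 * d := by
    unfold WeierstrassCurve.b₂
    refine (natDegree_add_le_of_le (m := 2 * d) (n := 2 * d) (natDegree_pow_le_of_le 2 h1) ?_).trans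
      (by simp)
    rw [show (4 : k[X]) = C (4 : k) from (map_ofNat C 4).symm]
    exact natDegree_C_mul_le' _ h2
  have hb4 : W.b₄.natDegree ≤ 4 * d := by
    unfold WeierstrassCurve.b₄
    refine (natDegree_add_le_of_le (m := 4 * d) (n := 4 * d) ?_ ?_).trans (by simp)
    · rw [show (2 : k[X]) = C (2 : k) from (map_ofNat C 2).symm]
      exact natDegree_C_mul_le' _ h4
    · exact (natDegree_mul_le_of_le h1 h3).trans (by omega)
  have hb6 : W.b₆.natDegree ≤ 6 * d := by
    unfold WeierstrassCurve.b₆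
    refine (natDegree_add_le_of_le (m := 6 * d) (n := 6 * d) ?_ ?_).trans (by simp)
    · exact (natDegree_pow_le_of_le 2 h3).trans (by omega)
    · rw [show (4 : k[X]) = C (4 : k) from (map_ofNat C 4).symm]
      exact natDegree_C_mul_le' _ h6
  unfold WeierstrassCurve.c₆
  refine (natDegree_sub_le_of_le (m := 6 * d) (n := 6 * d) ?_ ?_).trans (by simp)
  · refine (natDegree_add_le_of_le (m := 6 * d) (n := 6 * d) ?_ ?_).trans (by simp)
    · rw [natDegree_neg]
      exact (natDegree_pow_le_of_le 3 hb2).trans (by omega)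
    · rw [show (36 : k[X]) = C (36 : k) from (map_ofNat C 36).symm, mul_assoc]
      exact natDegree_C_mul_le' _ ((natDegree_mul_le_of_le hb2 hb4).trans (by omega))
  · rw [show (216 : k[X]) = C (216 : k) from (map_ofNat C 216).symm]
    exact natDegree_C_mul_le' _ hb6

variable (K) in
theorem cst_ne (h6 : (6 : k) ≠ 0) : (48 : k) ≠ 0 ∧ (864 : k) ≠ 0 := by
  have h2 := two_ne h6
  constructor
  · have : (48 : k) = 2 ^ 3 * 6 := by norm_num
    rw [this]
    exact mul_ne_zero (pow_ne_zero _ h2) h6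
  · have : (864 : k) = 2 ^ 2 * 6 ^ 3 := by norm_num
    rw [this]
    exact mul_ne_zero (pow_ne_zero _ h2) (pow_ne_zero _ h6)

theorem algebraMap_C_mul_inv (c : k) (m : ℕ) (hm : (m : k) ≠ 0) (p : k[X]) :
    algebraMap k[X] K (C (-((m : k)⁻¹)) * p) = -(algebraMap k[X] K p / (m : K)) := by
  have h1 : algebraMap k[X] K (C (m : k)) = (m : K) := by
    rw [show (C (m : k) : k[X]) = (m : k[X]) from map_natCast C m, map_natCast]
  have h2 : algebraMap k[X] K (C ((m : k)⁻¹)) * (m : K) = 1 := by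
    rw [← h1, ← map_mul, ← C_mul, inv_mul_cancel₀ hm, C_1, map_one]
  have h3 : (m : K) ≠ 0 := right_ne_zero_of_mul_eq_one h2
  rw [C_neg, neg_mul, map_neg, map_mul]
  congr 1
  rw [eq_div_iff h3]
  linear_combination (algebraMap k[X] K p) * h2

/-- A model of degree `d` gives a short model of degree `d`. -/
theorem short_model (h6 : (6 : k) ≠ 0) {A : EllipticCurves K} {d : ℕ} (h : HasModel k A d) :
    ∃ a b : k[X], a.natDegree ≤ 4 * d ∧ b.natDegree ≤ 6 * d ∧
      IsEquation A (sw (algebraMap k[X] K a) (algebraMap k[X] K b)) := by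
  obtain ⟨a₁, a₂, a₃, a₄, a₆, h1, h2, h3, h4, h5, hA⟩ := h
  have h6K : (6 : K) ≠ 0 := six_ne' h6
  obtain ⟨h48, h864⟩ := cst_ne (k := k) h6
  let W₀ : WeierstrassCurve k[X] := ⟨a₁, a₂, a₃, a₄, a₆⟩
  have hW : (⟨algebraMap k[X] K a₁, algebraMap k[X] K a₂, algebraMap k[X] K a₃,
      algebraMap k[X] K a₄, algebraMap k[X] K a₆⟩ : WeierstrassCurve K) =
      W₀.map (algebraMap k[X] K) := rfl
  rw [hW] at hA
  obtain ⟨C', hC'⟩ := short_eq h6K (W₀.map (algebraMap k[X] K))
  have hA' := hA.smul C'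
  rw [hC', map_c₄, map_c₆] at hA'
  refine ⟨C (-(((48 : ℕ) : k)⁻¹)) * W₀.c₄, C (-(((864 : ℕ) : k)⁻¹)) * W₀.c₆,
    natDegree_C_mul_le' _ (deg_c4 h1 h2 h3 h4), natDegree_C_mul_le' _ (deg_c6 h1 h2 h3 h4 h5), ?_⟩
  rw [algebraMap_C_mul_inv 0 48 (by exact_mod_cast h48),
    algebraMap_C_mul_inv 0 864 (by exact_mod_cast h864)]
  exact_mod_cast hA'

theorem HasModel.mono {A : EllipticCurves K} {d e : ℕ} (h : HasModel k A d) (hde : d ≤ e) :
    HasModel k A e := by
  obtain ⟨a₁, a₂, a₃, a₄, a₆, h1, h2, h3, h4, h5, hA⟩ := h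
  exact ⟨a₁, a₂, a₃, a₄, a₆, h1.trans hde, h2.trans (by omega), h3.trans (by omega),
    h4.trans (by omega), h5.trans (by omega), hA⟩

theorem hasModel_of_short {A : EllipticCurves K} {d : ℕ} {a b : k[X]} (h1 : a.natDegree ≤ 4 * d)
    (h2 : b.natDegree ≤ 6 * d)
    (hA : IsEquation A (sw (algebraMap k[X] K a) (algebraMap k[X] K b))) : HasModel k A d := by
  refine ⟨0, 0, 0, a, b, by simp, by simp, by simp, h1, h2, ?_⟩
  rw [map_zero]
  exact hA

/-- Every elliptic curve has a model. -/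
theorem exists_hasModel (h6 : (6 : k) ≠ 0) (A : EllipticCurves K) : ∃ d : ℕ, HasModel k A d := by
  have h6K : (6 : K) ≠ 0 := six_ne' h6
  obtain ⟨W, hW⟩ := exists_isEquation A
  obtain ⟨C, a, b, hC⟩ := exists_short h6K W
  have h1 : IsEquation A (sw a b) := by
    rw [← hC]
    exact hW.smul C
  obtain ⟨⟨d, hd⟩, hd'⟩ := IsLocalization.exist_integer_multiples_of_finset
    (nonZeroDivisors k[X]) ({a, b} : Finset K)
  have hd0 : algebraMap k[X] K d ≠ 0 := by
    rw [Ne, IsFractionRing.to_map_eq_zero_iff]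
    exact nonZeroDivisors.ne_zero hd
  obtain ⟨a', ha'⟩ := hd' a (by simp)
  obtain ⟨b', hb'⟩ := hd' b (by simp)
  have ha : algebraMap k[X] K a' = algebraMap k[X] K d * a := by
    rw [ha']
    exact Algebra.smul_def _ _
  have hb : algebraMap k[X] K b' = algebraMap k[X] K d * b := by
    rw [hb']
    exact Algebra.smul_def _ _
  have h2 := h1.scale (Units.mk0 (algebraMap k[X] K d) hd0)
  have e1 : algebraMap k[X] K (d ^ 3 * a') = (algebraMap k[X] K d) ^ 4 * a := by
    rw [map_mul, map_pow, ha]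
    ring
  have e2 : algebraMap k[X] K (d ^ 5 * b') = (algebraMap k[X] K d) ^ 6 * b := by
    rw [map_mul, map_pow, hb]
    ring
  refine ⟨max (d ^ 3 * a').natDegree (d ^ 5 * b').natDegree, hasModel_of_short (a := d ^ 3 * a')
    (b := d ^ 5 * b') ?_ ?_ ?_⟩
  · have := le_max_left (d ^ 3 * a').natDegree (d ^ 5 * b').natDegree
    omega
  · have := le_max_right (d ^ 3 * a').natDegree (d ^ 5 * b').natDegree
    omega
  · rw [e1, e2]
    exact h2

theorem modelDegree_le_iff (h6 : (6 : k) ≠ 0) (A : EllipticCurves K) (N : ℕ) :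
    modelDegree k A ≤ N ↔ HasModel k A N := by
  constructor
  · intro h
    have h1 : HasModel k A (modelDegree k A) := Nat.sInf_mem (exists_hasModel h6 A)
    exact h1.mono h
  · intro h
    exact Nat.sInf_le h

/-! ### Upper bound -/

variable (K) in
theorem upperFF [Finite k] (h6 : (6 : k) ≠ 0) (N : ℕ) :
    {A : EllipticCurves K | modelDegree k A ≤ N}.Finite ∧
    {A : EllipticCurves K | modelDegree k A ≤ N}.ncard ≤ Nat.card k ^ (10 * N + 2) := by
  set S : Set (EllipticCurves K) := {A | modelDegree k A ≤ N} with hS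
  have hex : ∀ A : EllipticCurves K, ∃ q : k[X] × k[X], A ∈ S →
      q.1.natDegree ≤ 4 * N ∧ q.2.natDegree ≤ 6 * N ∧
        IsEquation A (sw (algebraMap k[X] K q.1) (algebraMap k[X] K q.2)) := by
    intro A
    by_cases hA : A ∈ S
    · obtain ⟨a, b, h1, h2, h3⟩ := short_model h6 ((modelDegree_le_iff h6 A N).1 hA)
      exact ⟨(a, b), fun _ => ⟨h1, h2, h3⟩⟩
    · exact ⟨0, fun h0 => absurd h0 hA⟩
  choose q hq using hex
  have hinj : Set.InjOn q S := by
    intro A hA A' hA' he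
    have h1 := (hq A hA).2.2
    have h2 := (hq A' hA').2.2
    rw [he] at h1
    exact h1.unique h2
  have hmap : ∀ A ∈ S, q A ∈ {p : k[X] × k[X] | p.1.natDegree ≤ 4 * N ∧ p.2.natDegree ≤ 6 * N} :=
    fun A hA => ⟨(hq A hA).1, (hq A hA).2.1⟩
  refine ⟨Set.Finite.of_finite_image ((fin_box (4 * N) (6 * N)).subset
    (Set.image_subset_iff.2 hmap)) hinj, ?_⟩
  refine (Set.ncard_le_ncard_of_injOn q hmap hinj (fin_box (4 * N) (6 * N))).trans ?_
  rw [card_box]
  refine le_of_eq ?_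
  congr 1
  omega

/-! ### Lower bound -/

omit [Algebra k[X] K] [IsFractionRing k[X] K] in
theorem exp_one_le' {x : ℤᵐ⁰} (h : 1 < x) : exp (1 : ℤ) ≤ x := by
  have h0 : x ≠ 0 := (zero_lt_one.trans h).ne'
  rw [← exp_log h0] at h ⊢
  rw [← exp_zero, exp_lt_exp] at h
  rw [exp_le_exp]
  omega

theorem mem_of_scale {R L : Type} [CommRing R] [IsDedekindDomain R] [Field L] [Algebra R L]
    [IsFractionRing R L] (v : HeightOneSpectrum R) {u : L} (hu : 1 < v.valuation L u) {x y : R}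
    {m : ℕ} (h : algebraMap R L y = u ^ m * algebraMap R L x) : x ∈ v.asIdeal ^ m := by
  have h4 := exp_one_le' hu
  have h5 : v.valuation L (u ^ m * algebraMap R L x) ≤ 1 := by
    rw [← h]
    exact v.valuation_le_one y
  rw [map_mul, map_pow] at h5
  have h6 : exp (m : ℤ) * v.valuation L (algebraMap R L x) ≤ 1 := by
    refine le_trans ?_ h5
    refine mul_le_mul_left ?_ _
    calc exp (m : ℤ) = exp (1 : ℤ) ^ m := by rw [← exp_nsmul]; simp
      _ ≤ _ := pow_le_pow_left₀ zero_le h4 m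
  rw [← v.intValuation_le_pow_iff_mem, ← v.valuation_of_algebraMap (K := L)]
  have h8 := mul_le_mul_right h6 (exp (-(m : ℤ)))
  rw [← mul_assoc, ← exp_add, mul_one] at h8
  simpa using h8

theorem integralFF {a b a' b' : k[X]} (hmin : ∀ Q : k[X], Irreducible Q → Q ^ 4 ∣ a → ¬ Q ^ 6 ∣ b)
    {u : K} (h1 : algebraMap k[X] K a' = u ^ 4 * algebraMap k[X] K a)
    (h2 : algebraMap k[X] K b' = u ^ 6 * algebraMap k[X] K b) :
    ∃ w : k[X], algebraMap k[X] K w = u := by
  have h3 : ∀ v : HeightOneSpectrum k[X], v.valuation K u ≤ 1 := by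
    intro v
    by_contra hcon
    rw [not_le] at hcon
    have h4 := mem_of_scale v hcon h1
    have h5 := mem_of_scale v hcon h2
    obtain ⟨Q, hQ⟩ := (IsPrincipalIdealRing.principal v.asIdeal).principal
    have hQ' : v.asIdeal = Ideal.span {Q} := hQ
    have hQ0 : Q ≠ 0 := by
      rintro rfl
      apply v.ne_bot
      rw [hQ', Ideal.span_singleton_eq_bot]
    have hirr : Irreducible Q := by
      have h6 := v.isPrime
      rw [hQ', Ideal.span_singleton_prime hQ0] at h6
      exact h6.irreducible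
    rw [hQ', Ideal.span_singleton_pow, Ideal.mem_span_singleton] at h4 h5
    exact hmin Q hirr h4 h5
  exact HeightOneSpectrum.mem_integers_of_valuation_le_one K u h3

/-- the class of a pair -/
noncomputable def clsFF (h6 : (6 : k) ≠ 0) (q : k[X] × k[X]) : EllipticCurves K :=
  if h : (sw (algebraMap k[X] K q.1) (algebraMap k[X] K q.2)).Δ ≠ 0 then ⟦⟨_, h⟩⟧ else
    ⟦⟨sw 1 0, by
      rw [sw_disc_ne (six_ne' h6)]
      have h2 := two_ne (six_ne' (K := K) h6)
      have : (4 : K) * 1 ^ 3 + 27 * 0 ^ 2 = 2 ^ 2 := by norm_num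
      rw [this]
      exact pow_ne_zero 2 h2⟩⟧

theorem clsFF_spec (h6 : (6 : k) ≠ 0) {N : ℕ} {q : k[X] × k[X]} (h : Crv N q.1 q.2) :
    IsEquation (clsFF h6 q : EllipticCurves K)
      (sw (algebraMap k[X] K q.1) (algebraMap k[X] K q.2)) := by
  have h1 : (sw (algebraMap k[X] K q.1) (algebraMap k[X] K q.2)).Δ ≠ 0 := by
    rw [sw_disc_ne (six_ne' h6)]
    intro h0
    apply h.disc
    rw [← IsFractionRing.to_map_eq_zero_iff (K := K)]
    simpa only [map_add, map_mul, map_pow, map_ofNat] using h0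
  unfold clsFF
  rw [dif_pos h1]
  exact ⟨h1, rfl⟩

theorem degree_clsFF (h6 : (6 : k) ≠ 0) {N : ℕ} {q : k[X] × k[X]} (h : Crv N q.1 q.2) :
    modelDegree k (clsFF h6 q : EllipticCurves K) ≤ N :=
  (modelDegree_le_iff h6 _ N).2 (hasModel_of_short h.da h.db (clsFF_spec h6 h))

theorem trivial_clsFF (h6 : (6 : k) ≠ 0) {N : ℕ} {q : k[X] × k[X]} (h : Crv N q.1 q.2)
    (hg : Good K q) : TrivialSelmerFF k 2 (clsFF h6 q : EllipticCurves K) := by
  intro W hW
  obtain ⟨C, hC⟩ := (clsFF_spec (K := K) h6 h).rel hW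
  obtain ⟨hD, -⟩ := hW
  obtain ⟨hdiv, hfin, hsha⟩ := hg
  haveI : Finite (Pt (sw (algebraMap k[X] K q.1) (algebraMap k[X] K q.2)) K) := hfin
  have h2 : Subsingleton (SelmerGroup 2 (sw (algebraMap k[X] K q.1) (algebraMap k[X] K q.2))
      (CompletionFF k K)) :=
    trivialFF_of hsha hfin (Pool.Agent.N874.PP.odd_card
      (G := Pt (sw (algebraMap k[X] K q.1) (algebraMap k[X] K q.2)) K) hdiv)
  exact selmer_iso (pisoOf C hC hD) h2

variable (K) in
theorem lowerFF [Finite k] (h6 : (6 : k) ≠ 0) : ∃ c : ℝ, 0 < c ∧ ∃ N₀ : ℕ, ∀ N ≥ N₀,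
    c * (Nat.card k : ℝ) ^ (10 * N) ≤
      ({A : EllipticCurves K | modelDegree k A ≤ N ∧ TrivialSelmerFF k 2 A}.ncard : ℝ) := by
  obtain ⟨c, hc, N₀, h⟩ := Pool.Agent.N874.PP.final k h6 K
  have hq : (0 : ℝ) < Nat.card k := by exact_mod_cast Nat.card_pos
  refine ⟨c / Nat.card k, by positivity, N₀, fun N hN => ?_⟩
  set G : Set (k[X] × k[X]) := {p | Crv N p.1 p.2 ∧ Good K p} with hG
  have hGf : G.Finite := (Pool.Agent.N874.PP.crv_fin N).subset fun p hp => hp.1
  set S : Set (EllipticCurves K) := {A | modelDegree k A ≤ N ∧ TrivialSelmerFF k 2 A} with hS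
  have hSf : S.Finite := (upperFF K h6 N).1.subset fun A hA => hA.1
  letI : Fintype k := Fintype.ofFinite k
  have hfib : ∀ A ∈ hGf.toFinset.image (clsFF (K := K) h6),
      (hGf.toFinset.filter fun q => clsFF (K := K) h6 q = A).card ≤ Nat.card k := by
    intro A hA
    obtain ⟨q, hq, rfl⟩ := Finset.mem_image.1 hA
    rw [Set.Finite.mem_toFinset] at hq
    have hsub : (hGf.toFinset.filter fun q' => clsFF (K := K) h6 q' = clsFF h6 q) ⊆
        Finset.univ.image fun c : k => (C c ^ 4 * q.1, C c ^ 6 * q.2) := by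
      intro q' hq'
      rw [Finset.mem_filter, Set.Finite.mem_toFinset] at hq'
      obtain ⟨hq'G, hcl⟩ := hq'
      have h1 := clsFF_spec (K := K) h6 hq.1
      have h2 := clsFF_spec (K := K) h6 hq'G.1
      rw [hcl] at h2
      obtain ⟨u, h3, h4⟩ := IsEquation.sw_rel (six_ne' h6) h1 h2
      obtain ⟨w, hw⟩ := integralFF hq.1.min h3 h4
      have h3' : algebraMap k[X] K q.1 = ((u⁻¹ : Kˣ) : K) ^ 4 * algebraMap k[X] K q'.1 := by
        rw [h3, ← mul_assoc, ← mul_pow, Units.inv_mul, one_pow, one_mul]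
      have h4' : algebraMap k[X] K q.2 = ((u⁻¹ : Kˣ) : K) ^ 6 * algebraMap k[X] K q'.2 := by
        rw [h4, ← mul_assoc, ← mul_pow, Units.inv_mul, one_pow, one_mul]
      obtain ⟨w', hw'⟩ := integralFF hq'G.1.min h3' h4'
      have hww : w * w' = 1 := by
        apply IsFractionRing.injective k[X] K
        rw [map_mul, hw, hw', map_one, Units.mul_inv]
      obtain ⟨c, hc0, hcw⟩ := Polynomial.isUnit_iff.1 (IsUnit.of_mul_eq_one w' hww)
      rw [Finset.mem_image]
      refine ⟨c, Finset.mem_univ _, ?_⟩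
      rw [hcw]
      refine Prod.ext ?_ ?_
      · apply IsFractionRing.injective k[X] K
        rw [map_mul, map_pow, hw]
        exact h3.symm
      · apply IsFractionRing.injective k[X] K
        rw [map_mul, map_pow, hw]
        exact h4.symm
    calc _ ≤ (Finset.univ.image fun c : k => (C c ^ 4 * q.1, C c ^ 6 * q.2)).card :=
          Finset.card_le_card hsub
      _ ≤ (Finset.univ : Finset k).card := Finset.card_image_le
      _ = Nat.card k := by rw [Finset.card_univ, Nat.card_eq_fintype_card]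
  have h1 : hGf.toFinset.card ≤ Nat.card k * (hGf.toFinset.image (clsFF (K := K) h6)).card :=
    Finset.card_le_mul_card_image _ _ hfib
  have h2 : (hGf.toFinset.image (clsFF (K := K) h6)).card ≤ S.ncard := by
    rw [← Set.ncard_coe_finset]
    refine Set.ncard_le_ncard ?_ hSf
    intro A hA
    obtain ⟨q, hq, rfl⟩ := Finset.mem_image.1 (Finset.mem_coe.1 hA)
    rw [Set.Finite.mem_toFinset] at hq
    exact ⟨degree_clsFF h6 hq.1, trivial_clsFF h6 hq.1 hq.2⟩
  have h3 : (G.ncard : ℝ) ≤ Nat.card k * S.ncard := by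
    rw [Set.ncard_eq_toFinset_card _ hGf]
    exact_mod_cast h1.trans (Nat.mul_le_mul_left _ h2)
  have h4 := (h N hN).trans h3
  calc c / Nat.card k * (Nat.card k : ℝ) ^ (10 * N) = (c * (Nat.card k : ℝ) ^ (10 * N)) / Nat.card k := by
        ring
    _ ≤ (Nat.card k * S.ncard) / Nat.card k := div_le_div_of_nonneg_right h4 hq.le
    _ = S.ncard := by field_simp

end ff

end Pool.Agent.T9h58.Sel
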