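import Pool.Agent.T9h58.Sel.Def

/-!
# Elliptic curves over `K = k(t)`: places, models, height
-/

set_option autoImplicit false

open WeierstrassCurve IsDedekindDomain Polynomial
open Pool.Agent.TH115.GD (CompInf)
open scoped Classical

namespace Pool.Agent.T9h58.Sel

section functionfield

variable (k K : Type) [Field k] [Field K] [Algebra k[X] K] [IsFractionRing k[X] K]

/-- The completions of the rational function field `K = k(t)` at its places: the maximal ideals of `k[t]`
and the place `t = ∞`. -/
def CompletionFF : Option (HeightOneSpectrum k[X]) → Type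
  | some v => v.adicCompletion K
  | none => CompInf k K

noncomputable instance CompletionFF.field : ∀ v, Field (CompletionFF k K v)
  | some v => (inferInstance : Field (v.adicCompletion K))
  | none => (inferInstance : Field (CompInf k K))

noncomputable instance CompletionFF.algebra : ∀ v, Algebra K (CompletionFF k K v)
  | some v => (inferInstance : Algebra K (v.adicCompletion K))
  | none => (inferInstance : Algebra K (CompInf k K))

variable {K}

/-- `A` has a Weierstrass equation whose coefficients `a_i` are polynomials in `t` of degree at most `i d`,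
that is, sections of the line bundle `O(d) ^ i` on the projective line. -/
def HasModel (A : EllipticCurves K) (d : ℕ) : Prop :=
  ∃ a₁ a₂ a₃ a₄ a₆ : k[X], a₁.natDegree ≤ d ∧ a₂.natDegree ≤ 2 * d ∧ a₃.natDegree ≤ 3 * d ∧
    a₄.natDegree ≤ 4 * d ∧ a₆.natDegree ≤ 6 * d ∧
    IsEquation A ⟨algebraMap k[X] K a₁, algebraMap k[X] K a₂, algebraMap k[X] K a₃,
      algebraMap k[X] K a₄, algebraMap k[X] K a₆⟩

/-- The least degree of a line bundle with a model. -/
noncomputable def modelDegree (A : EllipticCurves K) : ℕ := sInf {d : ℕ | HasModel k A d}

/-- The height `H(A) = q ^ d`, `q` the number of elements of `k`. -/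
noncomputable def heightFF (A : EllipticCurves K) : ℝ := (Nat.card k : ℝ) ^ modelDegree k A

/-- `Sel_{p^∞}(A / K) = 0`. -/
def TrivialSelmerFF (p : ℕ) (A : EllipticCurves K) : Prop :=
  ∀ W : WeierstrassCurve K, IsEquation A W → Subsingleton (SelmerGroup p W (CompletionFF k K))

end functionfield

end Pool.Agent.T9h58.Sel
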