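import Pool.Agent.T9h58.Sel.Num

/-!
# Counting elliptic curves with trivial Selmer group over a number field, lower bound
-/

set_option autoImplicit false

open IsDedekindDomain NumberField WithZero
open scoped Classical

namespace Pool.Agent.T9h58.Sel

open Pool.Agent.N783.PF (Bd Ht SelZero Min fF Good)

section

variable (F : Type) [Field F] [NumberField F]

/-- The good pairs. -/
structure GoodIn {F : Type} [Field F] [NumberField F] (B : ℕ) (q : 𝓞 F × 𝓞 F) : Prop where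
  b1 : Bd (q.1 : F) ((B : ℝ) ^ 2)
  b2 : Bd (q.2 : F) ((B : ℝ) ^ 3)
  disc : 4 * (q.1 : F) ^ 3 + 27 * (q.2 : F) ^ 2 ≠ 0
  min : ∀ 𝔭 : Ideal (𝓞 F), 𝔭.IsPrime → 𝔭 ≠ ⊥ → ¬ (q.1 ∈ 𝔭 ^ 4 ∧ q.2 ∈ 𝔭 ^ 6)
  good : Good q

theorem goodIn_fin (B : ℕ) : {q : 𝓞 F × 𝓞 F | GoodIn B q}.Finite :=
  ((pts_fin F ((B : ℝ) ^ 2)).prod (pts_fin F ((B : ℝ) ^ 3))).subset fun q hq => ⟨hq.b1, hq.b2⟩

/-- Many good pairs. -/
theorem goodIn_card : ∃ c : ℝ, 0 < c ∧ ∃ B₀ : ℕ, ∀ B ≥ B₀,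
    c * (B : ℝ) ^ (5 * Module.finrank ℚ F) ≤ ({q : 𝓞 F × 𝓞 F | GoodIn B q}.ncard : ℝ) := by
  obtain ⟨-, C, hC, hlow, hup⟩ := Pool.Agent.N490.PF.pts F
  obtain ⟨c, hc, B₀, hmain⟩ := Pool.Agent.N783.PF.main 1 F le_rfl
  set d := Module.finrank ℚ F with hd
  refine ⟨c / C ^ 2, by positivity, max B₀ 1, fun B hB => ?_⟩
  obtain ⟨hfinH, hprop⟩ := hmain B ((le_max_left _ _).trans hB)
  have hl := Pool.Agent.N61.PF.ht_lower hC hlow ((le_max_right _ _).trans hB) hfinH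
  rw [← hd] at hl
  have h5 : ({f : Polynomial (𝓞 F) | Ht 1 B f ∧ Irreducible (fF f) ∧ SelZero f ∧ Min 1 f}.ncard : ℝ) ≤
      ({q : 𝓞 F × 𝓞 F | GoodIn B q}.ncard : ℝ) := by
    have h6 := Set.ncard_le_ncard_of_injOn (fun f : Polynomial (𝓞 F) => (f.coeff 1, f.coeff 0))
      (s := {f : Polynomial (𝓞 F) | Ht 1 B f ∧ Irreducible (fF f) ∧ SelZero f ∧ Min 1 f})
      (t := {q : 𝓞 F × 𝓞 F | GoodIn B q})
      (by
        rintro f ⟨hf1, hf2, hf3, hf4⟩
        have hcrv := Pool.Agent.N61.PF.crv_of_ht hf1 hf2 hf4 (le_refl (27 * (B : ℝ) ^ 6))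
        refine ⟨hf1.ht 1 (by norm_num), hf1.ht 0 (by norm_num), ?_, hcrv.min,
          Pool.Agent.N61.PF.good_of Pool.Agent.N783.PF.selc Pool.Agent.N713.QM.gfc
            Pool.Agent.N459.QM.finc hf1 hf2 hf3⟩
        intro h0
        apply hcrv.disc
        apply RingOfIntegers.ext
        have e4 : algebraMap (𝓞 F) F 4 = 4 := map_ofNat _ 4
        have e27 : algebraMap (𝓞 F) F 27 = 27 := map_ofNat _ 27
        show algebraMap (𝓞 F) F (4 * f.coeff 1 ^ 3 + 27 * f.coeff 0 ^ 2) = algebraMap (𝓞 F) F 0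
        rw [map_add, map_mul, map_mul, map_pow, map_pow, e4, e27, map_zero]
        exact h0)
      (by
        intro f hf f' hf' h
        have e := Prod.mk.injEq .. ▸ h
        rw [Pool.Agent.N61.PF.eq_pol hf.1, Pool.Agent.N61.PF.eq_pol hf'.1, e.1, e.2])
      (goodIn_fin F B)
    exact_mod_cast h6
  calc c / C ^ 2 * (B : ℝ) ^ (5 * d)
      ≤ c / C ^ 2 * (C ^ 2 * ({f : Polynomial (𝓞 F) | Ht 1 B f}.ncard : ℝ)) := by gcongr
    _ = c * ({f : Polynomial (𝓞 F) | Ht 1 B f}.ncard : ℝ) := by field_simp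
    _ ≤ _ := hprop.trans h5

/-- Many good balanced pairs. -/
theorem balanced_card : ∃ c η : ℝ, 0 < c ∧ 0 < η ∧ η ≤ 1 ∧ ∃ B₀ : ℕ, 1 ≤ B₀ ∧ ∀ B ≥ B₀,
    c * (B : ℝ) ^ (5 * Module.finrank ℚ F) ≤
      ({q : 𝓞 F × 𝓞 F | GoodIn B q ∧ ∀ σ : F →+* ℂ, η * (B : ℝ) ^ 3 < ‖σ (q.2 : F)‖}.ncard : ℝ) := by
  obtain ⟨c, hc, B₀, h⟩ := goodIn_card F
  obtain ⟨C₁, hC₁, h1⟩ := pts_card F
  obtain ⟨C₂, hC₂, h2⟩ := pts_small F
  set n := Module.finrank ℚ F with hn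
  have hn0 : 0 < n := Module.finrank_pos
  have hnr : (0 : ℝ) < n := by exact_mod_cast hn0
  set D : ℝ := n * (C₁ * C₂) with hD
  have hD0 : 0 < D := by positivity
  set η : ℝ := min 1 (c / (4 * D)) with hη
  have hη0 : 0 < η := lt_min one_pos (by positivity)
  have hη1 : η ≤ 1 := min_le_left _ _
  have hη2 : D * η ≤ c / 4 := by
    have : η ≤ c / (4 * D) := min_le_right _ _
    calc D * η ≤ D * (c / (4 * D)) := by gcongr
      _ = c / 4 := by field_simp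
  obtain ⟨B₁, hB₁⟩ := exists_nat_gt (4 * D / c)
  refine ⟨c / 2, η, by positivity, hη0, hη1, max (max B₀ B₁) 1, le_max_right _ _, fun B hB => ?_⟩
  have hB1 : 1 ≤ B := (le_max_right _ _).trans hB
  have hBr : (1 : ℝ) ≤ B := by exact_mod_cast hB1
  have hBB₁ : (B₁ : ℝ) ≤ B := by
    exact_mod_cast ((le_max_right _ _).trans (le_max_left _ _)).trans hB
  have hBη : D * (1 / (B : ℝ) ^ 3) ≤ c / 4 := by
    have h3 : 4 * D / c < B := lt_of_lt_of_le hB₁ hBB₁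
    have h4 : (B : ℝ) ≤ (B : ℝ) ^ 3 := le_self_pow₀ hBr (by norm_num)
    have h5 : 4 * D / c ≤ (B : ℝ) ^ 3 := (h3.le).trans h4
    rw [div_le_iff₀ hc] at h5
    rw [mul_one_div, div_le_iff₀ (by positivity)]
    linarith
  set S : Set (𝓞 F × 𝓞 F) := {q | GoodIn B q} with hS
  set G : Set (𝓞 F × 𝓞 F) :=
    {q | GoodIn B q ∧ ∀ σ : F →+* ℂ, η * (B : ℝ) ^ 3 < ‖σ (q.2 : F)‖} with hG
  let U : (F →+* ℂ) → Set (𝓞 F × 𝓞 F) := fun σ =>
    {a : 𝓞 F | Bd (a : F) ((B : ℝ) ^ 2)} ×ˢ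
      {a : 𝓞 F | Bd (a : F) ((B : ℝ) ^ 3) ∧ ‖σ (a : F)‖ ≤ η * (B : ℝ) ^ 3}
  have hUf : ∀ σ, (U σ).Finite := fun σ =>
    (pts_fin F _).prod ((pts_fin F ((B : ℝ) ^ 3)).subset fun a ha => ha.1)
  have hUc : ∀ σ, ((U σ).ncard : ℝ) ≤
      C₁ * C₂ * (η + 1 / (B : ℝ) ^ 3) * (B : ℝ) ^ (5 * n) := by
    intro σ
    show ((({a : 𝓞 F | Bd (a : F) ((B : ℝ) ^ 2)} ×ˢ
      {a : 𝓞 F | Bd (a : F) ((B : ℝ) ^ 3) ∧ ‖σ (a : F)‖ ≤ η * (B : ℝ) ^ 3} :
        Set (𝓞 F × 𝓞 F)).ncard : ℕ) : ℝ) ≤ _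
    rw [Set.ncard_prod]
    push_cast
    calc ({a : 𝓞 F | Bd (a : F) ((B : ℝ) ^ 2)}.ncard : ℝ) *
          ({a : 𝓞 F | Bd (a : F) ((B : ℝ) ^ 3) ∧ ‖σ (a : F)‖ ≤ η * (B : ℝ) ^ 3}.ncard : ℝ)
        ≤ (C₁ * ((B : ℝ) ^ 2) ^ n) * (C₂ * (η + 1 / (B : ℝ) ^ 3) * ((B : ℝ) ^ 3) ^ n) :=
          mul_le_mul (h1 _ (one_le_pow₀ hBr)) (h2 _ η σ (one_le_pow₀ hBr) hη0 hη1)
            (Nat.cast_nonneg _) (by positivity)
      _ = _ := by
          have e : 5 * n = 2 * n + 3 * n := by ring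
          rw [e, pow_add]
          ring
  have hsub : S ⊆ G ∪ ⋃ σ ∈ (Finset.univ : Finset (F →+* ℂ)), U σ := by
    intro q hq
    by_cases hall : ∀ σ : F →+* ℂ, η * (B : ℝ) ^ 3 < ‖σ (q.2 : F)‖
    · exact Or.inl ⟨hq, hall⟩
    · push Not at hall
      obtain ⟨σ, hσ⟩ := hall
      right
      simp only [Set.mem_iUnion]
      exact ⟨σ, Finset.mem_univ _, hq.b1, hq.b2, hσ⟩
  have hGf : G.Finite := (goodIn_fin F B).subset fun q hq => hq.1
  have hcard : (S.ncard : ℝ) ≤ G.ncard + ∑ σ : F →+* ℂ, ((U σ).ncard : ℝ) := by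
    have h3 : (⋃ σ ∈ (Finset.univ : Finset (F →+* ℂ)), U σ).Finite :=
      Set.Finite.biUnion (Finset.finite_toSet _) fun σ _ => hUf σ
    have h4 := Set.ncard_le_ncard hsub (hGf.union h3)
    have h5 := h4.trans (Set.ncard_union_le _ _)
    have h6 : (⋃ σ ∈ (Finset.univ : Finset (F →+* ℂ)), U σ).ncard ≤
        ∑ σ : F →+* ℂ, (U σ).ncard := Finset.set_ncard_biUnion_le _ _
    exact_mod_cast h5.trans (Nat.add_le_add_left h6 _)
  have hsum : ∑ σ : F →+* ℂ, ((U σ).ncard : ℝ) ≤ c / 2 * (B : ℝ) ^ (5 * n) := by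
    calc ∑ σ : F →+* ℂ, ((U σ).ncard : ℝ)
        ≤ ∑ _σ : F →+* ℂ, C₁ * C₂ * (η + 1 / (B : ℝ) ^ 3) * (B : ℝ) ^ (5 * n) :=
          Finset.sum_le_sum fun σ _ => hUc σ
      _ = (D * η + D * (1 / (B : ℝ) ^ 3)) * (B : ℝ) ^ (5 * n) := by
          rw [Finset.sum_const, Finset.card_univ, NumberField.Embeddings.card, nsmul_eq_mul, hD]
          ring
      _ ≤ (c / 4 + c / 4) * (B : ℝ) ^ (5 * n) := by gcongr
      _ = _ := by ring
  have hB0 : c * (B : ℝ) ^ (5 * n) ≤ S.ncard :=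
    h B (((le_max_left _ _).trans (le_max_left _ _)).trans hB)
  linarith

variable {F}

theorem exp_one_le {x : ℤᵐ⁰} (h : 1 < x) : exp (1 : ℤ) ≤ x := by
  have h0 : x ≠ 0 := (zero_lt_one.trans h).ne'
  rw [← exp_log h0] at h ⊢
  rw [← exp_zero, exp_lt_exp] at h
  rw [exp_le_exp]
  omega

/-- Isomorphic minimal equations differ by integral factors. -/
theorem integral_of_min {q q' : 𝓞 F × 𝓞 F}
    (hmin : ∀ 𝔭 : Ideal (𝓞 F), 𝔭.IsPrime → 𝔭 ≠ ⊥ → ¬ (q.1 ∈ 𝔭 ^ 4 ∧ q.2 ∈ 𝔭 ^ 6)) {u : F}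
    (h1 : (q'.1 : F) = u ^ 4 * q.1) (h2 : (q'.2 : F) = u ^ 6 * q.2) :
    ∃ w : 𝓞 F, (w : F) = u := by
  have h3 : ∀ v : HeightOneSpectrum (𝓞 F), v.valuation F u ≤ 1 := by
    intro v
    by_contra hcon
    rw [not_le] at hcon
    have h4 := exp_one_le hcon
    refine hmin v.asIdeal v.isPrime v.ne_bot ⟨?_, ?_⟩
    · have h5 : v.valuation F (u ^ 4 * q.1) ≤ 1 := by
        rw [← h1]
        exact v.valuation_le_one q'.1
      rw [map_mul, map_pow] at h5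
      have h6 : exp (4 : ℤ) * v.valuation F (q.1 : F) ≤ 1 := by
        refine le_trans ?_ h5
        refine mul_le_mul_left ?_ _
        calc exp (4 : ℤ) = exp (1 : ℤ) ^ 4 := by rw [← exp_nsmul]; norm_num
          _ ≤ _ := pow_le_pow_left₀ (zero_le) h4 4
      rw [← v.intValuation_le_pow_iff_mem, ← v.valuation_of_algebraMap (K := F)]
      have h7 : v.valuation F (q.1 : F) ≤ exp (-(4 : ℤ)) := by
        have h8 := mul_le_mul_right h6 (exp (-(4 : ℤ)))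
        rw [← mul_assoc, ← exp_add, mul_one] at h8
        simpa using h8
      exact_mod_cast h7
    · have h5 : v.valuation F (u ^ 6 * q.2) ≤ 1 := by
        rw [← h2]
        exact v.valuation_le_one q'.2
      rw [map_mul, map_pow] at h5
      have h6 : exp (6 : ℤ) * v.valuation F (q.2 : F) ≤ 1 := by
        refine le_trans ?_ h5
        refine mul_le_mul_left ?_ _
        calc exp (6 : ℤ) = exp (1 : ℤ) ^ 6 := by rw [← exp_nsmul]; norm_num
          _ ≤ _ := pow_le_pow_left₀ (zero_le) h4 6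
      rw [← v.intValuation_le_pow_iff_mem, ← v.valuation_of_algebraMap (K := F)]
      have h7 : v.valuation F (q.2 : F) ≤ exp (-(6 : ℤ)) := by
        have h8 := mul_le_mul_right h6 (exp (-(6 : ℤ)))
        rw [← mul_assoc, ← exp_add, mul_one] at h8
        simpa using h8
      exact_mod_cast h7
  obtain ⟨w, hw⟩ := HeightOneSpectrum.mem_integers_of_valuation_le_one F u h3
  exact ⟨w, hw⟩

/-- the class of a pair -/
noncomputable def cls (q : 𝓞 F × 𝓞 F) : EllipticCurves F :=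
  if h : (sw (q.1 : F) (q.2 : F)).Δ ≠ 0 then ⟦⟨_, h⟩⟧ else ⟦⟨sw 1 1, by
    rw [sw_disc_ne six_ne]; norm_num⟩⟧

theorem cls_spec {q : 𝓞 F × 𝓞 F} (h : 4 * (q.1 : F) ^ 3 + 27 * (q.2 : F) ^ 2 ≠ 0) :
    q ∈ models (cls q) := by
  have h1 : (sw (q.1 : F) (q.2 : F)).Δ ≠ 0 := (sw_disc_ne six_ne).2 h
  unfold cls
  rw [dif_pos h1]
  exact ⟨h1, rfl⟩

theorem height_cls {B : ℕ} {q : 𝓞 F × 𝓞 F} (h : GoodIn B q) :
    height (cls q) ≤ (B : ℝ) ^ (6 * Module.finrank ℚ F) := by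
  rw [height_le_iff]
  refine ⟨q, cls_spec h.disc, ?_⟩
  unfold modelHeight
  calc ∏ v : InfinitePlace F, max ((v (q.1 : F) ^ v.mult) ^ 3) ((v (q.2 : F) ^ v.mult) ^ 2)
      ≤ ∏ v : InfinitePlace F, ((B : ℝ) ^ 6) ^ v.mult := by
        refine Finset.prod_le_prod (fun v _ => by positivity) fun v _ => ?_
        refine max_le ?_ ?_
        · have h1 : v (q.1 : F) ≤ (B : ℝ) ^ 2 := by
            rw [← InfinitePlace.norm_embedding_eq]
            exact h.b1 _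
          calc (v (q.1 : F) ^ v.mult) ^ 3 ≤ (((B : ℝ) ^ 2) ^ v.mult) ^ 3 := by gcongr
            _ = _ := by ring
        · have h1 : v (q.2 : F) ≤ (B : ℝ) ^ 3 := by
            rw [← InfinitePlace.norm_embedding_eq]
            exact h.b2 _
          calc (v (q.2 : F) ^ v.mult) ^ 2 ≤ (((B : ℝ) ^ 3) ^ v.mult) ^ 2 := by gcongr
            _ = _ := by ring
    _ = _ := by
        rw [Finset.prod_pow_eq_pow_sum, InfinitePlace.sum_mult_eq, ← pow_mul]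

theorem trivial_cls {B : ℕ} {q : 𝓞 F × 𝓞 F} (h : GoodIn B q) : TrivialSelmer 2 (cls q) := by
  intro W hW
  have h1 : IsEquation (cls q) (sw (q.1 : F) (q.2 : F)) := cls_spec h.disc
  obtain ⟨C, hC⟩ := h1.rel hW
  obtain ⟨hD, -⟩ := hW
  have h2 : Subsingleton (SelmerGroup 2 (sw (q.1 : F) (q.2 : F)) (Completion F)) :=
    trivial_of h.good.sha h.good.fin h.good.odd
  exact selmer_iso (pisoOf C hC hD) h2

variable (F)

/-- The number of the elliptic curves of bounded height with trivial Selmer group, lower bound. -/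
theorem lower : ∃ c : ℝ, 0 < c ∧ ∃ B₀ : ℕ, 1 ≤ B₀ ∧ ∀ B ≥ B₀,
    c * (B : ℝ) ^ (5 * Module.finrank ℚ F) ≤
      ({A : EllipticCurves F | height A ≤ (B : ℝ) ^ (6 * Module.finrank ℚ F) ∧
        TrivialSelmer 2 A}.ncard : ℝ) := by
  obtain ⟨c, η, hc, hη, hη1, B₀, hB₀, h⟩ := balanced_card F
  obtain ⟨Cu, hCu, hup⟩ := upper F
  set n := Module.finrank ℚ F with hn
  set V : Set (𝓞 F) := {u : 𝓞 F | Bd (u : F) (1 / η)} with hV
  have hVf : V.Finite := pts_fin F _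
  set M : ℕ := V.ncard + 1 with hM
  have hM0 : (0 : ℝ) < M := by rw [hM]; positivity
  refine ⟨c / M, by positivity, B₀, hB₀, fun B hB => ?_⟩
  have hB1 : (1 : ℝ) ≤ B := by exact_mod_cast hB₀.trans hB
  set G : Set (𝓞 F × 𝓞 F) :=
    {q | GoodIn B q ∧ ∀ σ : F →+* ℂ, η * (B : ℝ) ^ 3 < ‖σ (q.2 : F)‖} with hG
  have hGf : G.Finite := (goodIn_fin F B).subset fun q hq => hq.1
  set S : Set (EllipticCurves F) := {A | height A ≤ (B : ℝ) ^ (6 * n) ∧ TrivialSelmer 2 A} with hS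
  have hSf : S.Finite := (hup B hB1).1.subset fun A hA => hA.1
  have hfib : ∀ A ∈ hGf.toFinset.image cls,
      (hGf.toFinset.filter fun q => cls q = A).card ≤ M := by
    intro A hA
    obtain ⟨q, hq, rfl⟩ := Finset.mem_image.1 hA
    rw [Set.Finite.mem_toFinset] at hq
    have hsub : (hGf.toFinset.filter fun q' => cls q' = cls q) ⊆
        hVf.toFinset.image fun u => (u ^ 4 * q.1, u ^ 6 * q.2) := by
      intro q' hq'
      rw [Finset.mem_filter, Set.Finite.mem_toFinset] at hq'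
      obtain ⟨hq'G, hcl⟩ := hq'
      have h1 : q ∈ models (cls q) := cls_spec hq.1.disc
      have h2 : q' ∈ models (cls q) := by
        rw [← hcl]
        exact cls_spec hq'G.1.disc
      obtain ⟨u, h3, h4⟩ := models_rel h1 h2
      obtain ⟨w, hw⟩ := integral_of_min hq.1.min h3 h4
      rw [← hw] at h3 h4
      rw [Finset.mem_image]
      refine ⟨w, ?_, ?_⟩
      · rw [Set.Finite.mem_toFinset]
        intro σ
        by_contra hcon
        rw [not_le] at hcon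
        have h5 : ‖σ (q'.2 : F)‖ ≤ (B : ℝ) ^ 3 := hq'G.1.b2 σ
        have h6 : η * (B : ℝ) ^ 3 < ‖σ (q.2 : F)‖ := hq.2 σ
        rw [h4, map_mul, map_pow, norm_mul, norm_pow] at h5
        have h7 : 1 ≤ 1 / η := by
          rw [le_div_iff₀ hη]
          linarith
        have h8 : ‖σ (w : F)‖ ≤ ‖σ (w : F)‖ ^ 6 :=
          le_self_pow₀ (h7.trans hcon.le) (by norm_num)
        have h9 : 1 / η < ‖σ (w : F)‖ ^ 6 := hcon.trans_le h8
        have h10 : (1 / η) * (η * (B : ℝ) ^ 3) < ‖σ (w : F)‖ ^ 6 * ‖σ (q.2 : F)‖ :=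
          mul_lt_mul h9 h6.le (by positivity) (by positivity)
        have h11 : (1 / η) * (η * (B : ℝ) ^ 3) = (B : ℝ) ^ 3 := by field_simp
        linarith
      · refine Prod.ext ?_ ?_
        · apply RingOfIntegers.ext
          show algebraMap (𝓞 F) F (w ^ 4 * q.1) = _
          rw [map_mul, map_pow]
          exact h3.symm
        · apply RingOfIntegers.ext
          show algebraMap (𝓞 F) F (w ^ 6 * q.2) = _
          rw [map_mul, map_pow]
          exact h4.symm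
    calc _ ≤ (hVf.toFinset.image fun u => (u ^ 4 * q.1, u ^ 6 * q.2)).card := Finset.card_le_card hsub
      _ ≤ hVf.toFinset.card := Finset.card_image_le
      _ = V.ncard := (Set.ncard_eq_toFinset_card _ hVf).symm
      _ ≤ M := by omega
  have h1 : hGf.toFinset.card ≤ M * (hGf.toFinset.image cls).card :=
    Finset.card_le_mul_card_image _ _ hfib
  have h2 : (hGf.toFinset.image cls).card ≤ S.ncard := by
    rw [← Set.ncard_coe_finset]
    refine Set.ncard_le_ncard ?_ hSf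
    intro A hA
    obtain ⟨q, hq, rfl⟩ := Finset.mem_image.1 (Finset.mem_coe.1 hA)
    rw [Set.Finite.mem_toFinset] at hq
    exact ⟨height_cls hq.1, trivial_cls hq.1⟩
  have h3 : (G.ncard : ℝ) ≤ M * S.ncard := by
    rw [Set.ncard_eq_toFinset_card _ hGf]
    exact_mod_cast h1.trans (Nat.mul_le_mul_left _ h2)
  have h4 := h B hB
  calc c / M * (B : ℝ) ^ (5 * n) = (c * (B : ℝ) ^ (5 * n)) / M := by ring
    _ ≤ (M * S.ncard) / M := by
        refine div_le_div_of_nonneg_right (h4.trans h3) hM0.le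
    _ = S.ncard := by field_simp

end

end Pool.Agent.T9h58.Sel
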