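import Pool.Agent.T9h58.Sel.Cnt
import Pool.Agent.T9h58.Sel.Brg
import Pool.Agent.T9h58.Sel.Cls

/-!
# Counting elliptic curves over a number field up to isomorphism
-/

set_option autoImplicit false

open IsDedekindDomain NumberField
open scoped Classical

namespace Pool.Agent.T9h58.Sel

open Pool.Agent.N783.PF (Bd Ht SelZero Min fF Good)

section

variable (F : Type) [Field F] [NumberField F]

theorem exists_balanced : ∃ C : ℝ, 1 ≤ C ∧ ∀ (A : EllipticCurves F) (T : ℝ), 1 ≤ T →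
    height A ≤ T ^ (6 * Module.finrank ℚ F) →
    ∃ q ∈ models A, Bd (q.1 : F) ((C * T) ^ 2) ∧ Bd (q.2 : F) ((C * T) ^ 3) := by
  obtain ⟨R, hR, hun⟩ := H715R2.exists_unit_near F
  set n := Module.finrank ℚ F with hn
  have hn0 : 0 < n := Module.finrank_pos
  have hnr : (0 : ℝ) < n := by exact_mod_cast hn0
  refine ⟨Real.exp (2 * R), Real.one_le_exp (by linarith), fun A T hT hA => ?_⟩
  obtain ⟨q, hq, hh⟩ := (height_le_iff A _).1 hA
  have hmH := modelHeight_pos hq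
  set M : InfinitePlace F → ℝ := fun v => max (v (q.1 : F) ^ 3) (v (q.2 : F) ^ 2) with hM
  have hM0 : ∀ v, 0 < M v := by
    intro v
    rcases models_ne hq with h1 | h1
    · refine lt_max_of_lt_left ?_
      have h2 : 0 < v (q.1 : F) := InfinitePlace.pos_iff.2 fun h0 => h1 (RingOfIntegers.ext h0)
      positivity
    · refine lt_max_of_lt_right ?_
      have h2 : 0 < v (q.2 : F) := InfinitePlace.pos_iff.2 fun h0 => h1 (RingOfIntegers.ext h0)
      positivity
  have hMm : ∀ v : InfinitePlace F, max ((v (q.1 : F) ^ v.mult) ^ 3) ((v (q.2 : F) ^ v.mult) ^ 2) =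
      M v ^ v.mult := by
    intro v
    have h1 : 0 ≤ v (q.1 : F) ^ 3 := by positivity
    have h2 : 0 ≤ v (q.2 : F) ^ 2 := by positivity
    rw [hM]
    simp only
    rcases le_total (v (q.1 : F) ^ 3) (v (q.2 : F) ^ 2) with h | h
    · rw [max_eq_right h, max_eq_right]
      · ring
      · have := pow_le_pow_left₀ h1 h v.mult
        calc (v (q.1 : F) ^ v.mult) ^ 3 = (v (q.1 : F) ^ 3) ^ v.mult := by ring
          _ ≤ _ := this
          _ = _ := by ring
    · rw [max_eq_left h, max_eq_left]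
      · ring
      · have := pow_le_pow_left₀ h2 h v.mult
        calc (v (q.2 : F) ^ v.mult) ^ 2 = (v (q.2 : F) ^ 2) ^ v.mult := by ring
          _ ≤ _ := this
          _ = _ := by ring
  have hlog : ∑ v : InfinitePlace F, (v.mult : ℝ) * Real.log (M v) = Real.log (modelHeight q) := by
    unfold modelHeight
    rw [Real.log_prod (fun v _ => by rw [hMm]; exact (pow_pos (hM0 v) _).ne')]
    refine Finset.sum_congr rfl fun v _ => ?_
    rw [hMm, Real.log_pow]
  have hsm : ∑ v : InfinitePlace F, (v.mult : ℝ) = n := by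
    exact_mod_cast InfinitePlace.sum_mult_eq (K := F)
  set Λ : ℝ := Real.log (modelHeight q) / n with hΛ
  have hΛT : Λ ≤ 6 * Real.log T := by
    rw [hΛ, div_le_iff₀ hnr]
    calc Real.log (modelHeight q) ≤ Real.log (T ^ (6 * n)) := Real.log_le_log hmH hh
      _ = 6 * Real.log T * n := by
        rw [Real.log_pow]
        push_cast
        ring
  obtain ⟨ε, hε⟩ := hun (fun v => (Λ - Real.log (M v)) / 12) (by
    have : ∀ v : InfinitePlace F, (v.mult : ℝ) * ((Λ - Real.log (M v)) / 12) =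
        (Λ / 12) * v.mult - (v.mult * Real.log (M v)) / 12 := fun v => by ring
    simp only [this]
    rw [Finset.sum_sub_distrib, ← Finset.mul_sum, ← Finset.sum_div, hlog, hsm, hΛ]
    field_simp
    ring)
  have hεF : ((ε : 𝓞 F) : F) ≠ 0 := fun h0 => ε.ne_zero (RingOfIntegers.ext h0)
  have hMv : ∀ v : InfinitePlace F, v ((ε : 𝓞 F) : F) ^ 12 * M v ≤ (Real.exp (2 * R) * T) ^ 6 := by
    intro v
    have hv0 : 0 < v ((ε : 𝓞 F) : F) := InfinitePlace.pos_iff.2 hεF
    have h1 := (abs_le.1 (hε v)).2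
    have h2 : Real.log (v ((ε : 𝓞 F) : F) ^ 12 * M v) ≤ Real.log ((Real.exp (2 * R) * T) ^ 6) := by
      rw [Real.log_mul (pow_pos hv0 _).ne' (hM0 v).ne', Real.log_pow, Real.log_pow,
        Real.log_mul (Real.exp_pos _).ne' (by linarith), Real.log_exp]
      push_cast
      linarith
    exact (Real.log_le_log_iff (mul_pos (pow_pos hv0 _) (hM0 v)) (by positivity)).1 h2
  refine ⟨(((ε : 𝓞 F)) ^ 4 * q.1, ((ε : 𝓞 F)) ^ 6 * q.2), ?_, ?_, ?_⟩
  · have h1 := hq.scale (Units.mk0 ((ε : 𝓞 F) : F) hεF)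
    show IsEquation A (sw (algebraMap (𝓞 F) F ((ε : 𝓞 F) ^ 4 * q.1))
      (algebraMap (𝓞 F) F ((ε : 𝓞 F) ^ 6 * q.2)))
    rw [map_mul, map_mul, map_pow, map_pow]
    exact h1
  · intro σ
    have h1 := hMv (InfinitePlace.mk σ)
    show ‖σ (algebraMap (𝓞 F) F ((ε : 𝓞 F) ^ 4 * q.1))‖ ≤ _
    rw [map_mul, map_pow, map_mul, map_pow, norm_mul, norm_pow]
    refine le_of_pow_le_pow_left₀ (n := 3) (by norm_num) (by positivity) ?_
    calc (‖σ ((ε : 𝓞 F) : F)‖ ^ 4 * ‖σ (q.1 : F)‖) ^ 3 =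
          (InfinitePlace.mk σ) ((ε : 𝓞 F) : F) ^ 12 * (InfinitePlace.mk σ) (q.1 : F) ^ 3 := by
          rw [InfinitePlace.apply, InfinitePlace.apply]
          ring
      _ ≤ (InfinitePlace.mk σ) ((ε : 𝓞 F) : F) ^ 12 * M (InfinitePlace.mk σ) := by
          gcongr
          exact le_max_left _ _
      _ ≤ _ := h1
      _ = _ := by ring
  · intro σ
    have h1 := hMv (InfinitePlace.mk σ)
    show ‖σ (algebraMap (𝓞 F) F ((ε : 𝓞 F) ^ 6 * q.2))‖ ≤ _
    rw [map_mul, map_pow, map_mul, map_pow, norm_mul, norm_pow]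
    refine le_of_pow_le_pow_left₀ (n := 2) (by norm_num) (by positivity) ?_
    calc (‖σ ((ε : 𝓞 F) : F)‖ ^ 6 * ‖σ (q.2 : F)‖) ^ 2 =
          (InfinitePlace.mk σ) ((ε : 𝓞 F) : F) ^ 12 * (InfinitePlace.mk σ) (q.2 : F) ^ 2 := by
          rw [InfinitePlace.apply, InfinitePlace.apply]
          ring
      _ ≤ (InfinitePlace.mk σ) ((ε : 𝓞 F) : F) ^ 12 * M (InfinitePlace.mk σ) := by
          gcongr
          exact le_max_right _ _
      _ ≤ _ := h1
      _ = _ := by ring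

/-- The number of the elliptic curves of bounded height, upper bound. -/
theorem upper : ∃ C : ℝ, 0 < C ∧ ∀ T : ℝ, 1 ≤ T →
    {A : EllipticCurves F | height A ≤ T ^ (6 * Module.finrank ℚ F)}.Finite ∧
    ({A : EllipticCurves F | height A ≤ T ^ (6 * Module.finrank ℚ F)}.ncard : ℝ) ≤
      C * T ^ (5 * Module.finrank ℚ F) := by
  obtain ⟨C, hC, h⟩ := exists_balanced F
  obtain ⟨D, hD, hpts⟩ := pts_card F
  set n := Module.finrank ℚ F with hn
  refine ⟨D ^ 2 * C ^ (5 * n), by positivity, fun T hT => ?_⟩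
  set S : Set (EllipticCurves F) := {A | height A ≤ T ^ (6 * n)} with hS
  have hex : ∀ A : EllipticCurves F, ∃ q : 𝓞 F × 𝓞 F, A ∈ S →
      q ∈ models A ∧ Bd (q.1 : F) ((C * T) ^ 2) ∧ Bd (q.2 : F) ((C * T) ^ 3) := by
    intro A
    by_cases hA : A ∈ S
    · obtain ⟨q, h1, h2, h3⟩ := h A T hT hA
      exact ⟨q, fun _ => ⟨h1, h2, h3⟩⟩
    · exact ⟨0, fun h0 => absurd h0 hA⟩
  choose q hq using hex
  have hmap : ∀ A ∈ S, q A ∈ {a : 𝓞 F | Bd (a : F) ((C * T) ^ 2)} ×ˢ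
      {a : 𝓞 F | Bd (a : F) ((C * T) ^ 3)} := fun A hA => (hq A hA).2
  have hinj : Set.InjOn q S := by
    intro A hA A' hA' he
    have h1 : IsEquation A _ := (hq A hA).1
    have h2 : IsEquation A' _ := (hq A' hA').1
    rw [he] at h1
    exact h1.unique h2
  have hfin : ({a : 𝓞 F | Bd (a : F) ((C * T) ^ 2)} ×ˢ
      {a : 𝓞 F | Bd (a : F) ((C * T) ^ 3)} : Set (𝓞 F × 𝓞 F)).Finite :=
    (pts_fin F _).prod (pts_fin F _)
  have hCT : 1 ≤ C * T := one_le_mul_of_one_le_of_one_le hC hT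
  refine ⟨Set.Finite.of_finite_image (hfin.subset (Set.image_subset_iff.2 hmap)) hinj, ?_⟩
  have h1 := Set.ncard_le_ncard_of_injOn q hmap hinj hfin
  rw [Set.ncard_prod] at h1
  calc (S.ncard : ℝ) ≤ ({a : 𝓞 F | Bd (a : F) ((C * T) ^ 2)}.ncard : ℝ) *
        ({a : 𝓞 F | Bd (a : F) ((C * T) ^ 3)}.ncard : ℝ) := by exact_mod_cast h1
    _ ≤ (D * ((C * T) ^ 2) ^ n) * (D * ((C * T) ^ 3) ^ n) :=
        mul_le_mul (hpts _ (one_le_pow₀ hCT)) (hpts _ (one_le_pow₀ hCT)) (Nat.cast_nonneg _)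
          (by positivity)
    _ = D ^ 2 * C ^ (5 * n) * T ^ (5 * n) := by
        have e : 5 * n = 2 * n + 3 * n := by ring
        rw [e, pow_add, pow_add]
        ring

end

end Pool.Agent.T9h58.Sel
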